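import Mathlib

set_option autoImplicit false
set_option linter.unusedSectionVars false
set_option linter.unusedVariables false

/-!
Matroid polytopes and their subdivisions into matroid polytopes.
-/

namespace Pool.Agent.Q163.PG

open Finset

/-- The indicator vector of a set of elements. -/
noncomputable def vec {E : Type} (B : Set E) : E → ℝ := B.indicator (fun _ => 1)

/-- The matroid polytope: the convex hull of the indicator vectors of the bases. -/
def polytope {E : Type} (M : Matroid E) : Set (E → ℝ) :=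
  convexHull ℝ {x | ∃ B : Set E, M.IsBase B ∧ x = vec B}

/-- `F` is a nonempty face of the polytope `P`: the set of the points of `P` at which some linear
functional is maximal on `P`. -/
def IsFace {E : Type} (P F : Set (E → ℝ)) : Prop :=
  F.Nonempty ∧ ∃ l : (E → ℝ) →ₗ[ℝ] ℝ, F = {x | x ∈ P ∧ ∀ y ∈ P, l y ≤ l x}

/-- A matroid subdivision of the polytope of `M`, given by the set of all its nonempty cells. -/
structure IsMatroidSubdivision {E : Type} (M : Matroid E) (S : Set (Set (E → ℝ))) : Prop where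
  /-- Every cell is a matroid polytope, all vertices of which are vertices of the polytope of `M`. -/
  cells : ∀ C ∈ S, ∃ N : Matroid E, (∀ B, N.IsBase B → M.IsBase B) ∧ C = polytope N
  /-- The union of the cells is the polytope of `M`. -/
  cover : ⋃₀ S = polytope M
  /-- Every nonempty face of a cell is a cell. -/
  face : ∀ C ∈ S, ∀ F, IsFace C F → F ∈ S
  /-- Two cells which are not disjoint meet in a common face. -/
  inter : ∀ C ∈ S, ∀ D ∈ S, (C ∩ D).Nonempty → IsFace C (C ∩ D) ∧ IsFace D (C ∩ D)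

/-- A matroid is indecomposable if its polytope has no matroid subdivision besides the trivial one,
whose cells are the polytope and its faces. -/
def Indecomposable {E : Type} (M : Matroid E) : Prop :=
  ∀ S : Set (Set (E → ℝ)), IsMatroidSubdivision M S → S = {F | IsFace (polytope M) F}

section basics

variable {E : Type} [Fintype E] [DecidableEq E]

theorem vec_apply (B : Finset E) (e : E) : vec (B : Set E) e = if e ∈ B then 1 else 0 := by
  unfold vec
  by_cases h : e ∈ B
  · rw [if_pos h, Set.indicator_of_mem (by exact_mod_cast h)]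
  · rw [if_neg h, Set.indicator_of_notMem (by exact_mod_cast h)]

theorem exists_fs (B : Set E) : ∃ C : Finset E, (C : Set E) = B :=
  ⟨B.toFinite.toFinset, Set.Finite.coe_toFinset _⟩

/-- the linear functional with given weights -/
noncomputable def wl (w : E → ℝ) : (E → ℝ) →ₗ[ℝ] ℝ := ∑ e, w e • LinearMap.proj e

theorem wl_apply (w x : E → ℝ) : wl w x = ∑ e, w e * x e := by
  unfold wl
  rw [LinearMap.sum_apply]
  rfl

theorem wl_vec (w : E → ℝ) (B : Finset E) : wl w (vec (B : Set E)) = ∑ e ∈ B, w e := by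
  rw [wl_apply]
  simp only [vec_apply, mul_ite, mul_one, mul_zero]
  rw [Finset.sum_ite_mem, univ_inter]

theorem vec_mem (N : Matroid E) (B : Finset E) (h : N.IsBase (B : Set E)) :
    vec (B : Set E) ∈ polytope N := subset_convexHull _ _ ⟨_, h, rfl⟩

theorem hull_le (N : Matroid E) (l : (E → ℝ) →ₗ[ℝ] ℝ) (c : ℝ)
    (h : ∀ B : Finset E, N.IsBase (B : Set E) → l (vec (B : Set E)) ≤ c) :
    ∀ x ∈ polytope N, l x ≤ c := by
  intro x hx
  have h1 : polytope N ⊆ {x | l x ≤ c} := by
    apply convexHull_min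
    · rintro y ⟨B, hB, rfl⟩
      obtain ⟨C, rfl⟩ := exists_fs B
      exact h C hB
    · exact convex_halfSpace_le l.isLinear c
  exact h1 hx

theorem vec_mem_iff (N : Matroid E) (B : Finset E) :
    vec (B : Set E) ∈ polytope N ↔ N.IsBase (B : Set E) := by
  refine ⟨fun h => ?_, vec_mem N B⟩
  by_contra hcon
  have h1 := hull_le N (wl (fun e => if e ∈ B then 1 else -1)) ((B.card : ℝ) - 1) (by
    intro C hC
    rw [wl_vec]
    have h2 : ∑ e ∈ C, (if e ∈ B then (1:ℝ) else -1) = (C ∩ B).card - (C \ B).card := by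
      have e1 : C = (C ∩ B) ∪ (C \ B) := by
        ext x; simp only [mem_union, mem_inter, mem_sdiff]; tauto
      have hd : Disjoint (C ∩ B) (C \ B) := by
        rw [Finset.disjoint_left]
        intro x hx hx'
        exact (mem_sdiff.1 hx').2 (mem_inter.1 hx).2
      conv_lhs => rw [e1]
      rw [sum_union hd]
      have s1 : ∑ e ∈ C ∩ B, (if e ∈ B then (1:ℝ) else -1) = (C ∩ B).card := by
        rw [sum_congr rfl (fun e he => if_pos (mem_inter.1 he).2)]
        simp
      have s2 : ∑ e ∈ C \ B, (if e ∈ B then (1:ℝ) else -1) = -(C \ B).card := by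
        rw [sum_congr rfl (fun e he => if_neg (mem_sdiff.1 he).2)]
        simp
      rw [s1, s2]
      ring
    rw [h2]
    have hne : C ≠ B := by
      rintro rfl
      exact hcon hC
    have h3 : (C ∩ B).card + 1 ≤ B.card + (C \ B).card := by
      by_contra h4
      push Not at h4
      have h5 : (C ∩ B).card ≤ B.card := card_le_card inter_subset_right
      have h6 : (C \ B).card = 0 := by omega
      have h7 : (C ∩ B).card = B.card := by omega
      have h8 : C ∩ B = B := eq_of_subset_of_card_le inter_subset_right h7.ge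
      rw [card_eq_zero, sdiff_eq_empty_iff_subset] at h6
      exact hne (Finset.Subset.antisymm h6 (inter_eq_right.1 h8))
    have h4 : ((C ∩ B).card : ℝ) + 1 ≤ B.card + (C \ B).card := by exact_mod_cast h3
    linarith) _ h
  rw [wl_vec, sum_congr rfl (fun e he => if_pos he)] at h1
  simp at h1
  linarith

/-- the number of bases -/
noncomputable def nb (N : Matroid E) : ℕ := by
  classical
  exact (univ.filter (fun B : Finset E => N.IsBase (B : Set E))).card

theorem exists_base (N : Matroid E) : ∃ B : Finset E, N.IsBase (B : Set E) := by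
  obtain ⟨B, hB⟩ := N.exists_isBase
  obtain ⟨C, rfl⟩ := exists_fs B
  exact ⟨C, hB⟩

variable {M : Matroid E} {S : Set (Set (E → ℝ))} (hS : IsMatroidSubdivision M S)

include hS

theorem cell_base {N : Matroid E} (hN : polytope N ∈ S) {B : Finset E}
    (hB : N.IsBase (B : Set E)) : M.IsBase (B : Set E) := by
  obtain ⟨N', h1, h2⟩ := hS.cells _ hN
  apply h1
  rw [← vec_mem_iff, ← h2, vec_mem_iff]
  exact hB

/-- the faces of the cells -/
theorem face_cell {N : Matroid E} (hN : polytope N ∈ S) (l : (E → ℝ) →ₗ[ℝ] ℝ) :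
    ∃ N' : Matroid E, polytope N' ∈ S ∧
      ∀ x, x ∈ polytope N' ↔ (x ∈ polytope N ∧ ∀ y ∈ polytope N, l y ≤ l x) := by
  classical
  have hF : IsFace (polytope N) {x | x ∈ polytope N ∧ ∀ y ∈ polytope N, l y ≤ l x} := by
    refine ⟨?_, l, rfl⟩
    obtain ⟨B₀, hB₀⟩ := exists_base N
    obtain ⟨B, hB, hmax⟩ := Finset.exists_max_image
      (univ.filter (fun B : Finset E => N.IsBase (B : Set E))) (fun B => l (vec (B : Set E)))
      ⟨B₀, by simp [hB₀]⟩
    rw [mem_filter] at hB
    refine ⟨vec (B : Set E), vec_mem N B hB.2, ?_⟩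
    apply hull_le
    intro C hC
    exact hmax C (by rw [mem_filter]; exact ⟨mem_univ _, hC⟩)
  have h1 := hS.face _ hN _ hF
  obtain ⟨N', -, h2⟩ := hS.cells _ h1
  refine ⟨N', by rw [← h2]; exact h1, fun x => ?_⟩
  rw [← h2]
  rfl

/-- the smallest cell which contains a point -/
theorem min_cell {z : E → ℝ} (hz : z ∈ polytope M) : ∃ N : Matroid E, polytope N ∈ S ∧
    z ∈ polytope N ∧ ∀ l : (E → ℝ) →ₗ[ℝ] ℝ,
      (∀ B : Finset E, N.IsBase (B : Set E) → l (vec (B : Set E)) ≤ l z) →
      ∀ B : Finset E, N.IsBase (B : Set E) → l (vec (B : Set E)) = l z := by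
  classical
  have hex : ∃ n, ∃ N : Matroid E, polytope N ∈ S ∧ z ∈ polytope N ∧ nb N = n := by
    rw [← hS.cover] at hz
    obtain ⟨C, hC, hzC⟩ := hz
    obtain ⟨N, -, h2⟩ := hS.cells _ hC
    exact ⟨_, N, by rw [← h2]; exact hC, by rw [← h2]; exact hzC, rfl⟩
  obtain ⟨N, hN, hzN, hn⟩ := Nat.find_spec hex
  refine ⟨N, hN, hzN, fun l hl B hB => ?_⟩
  obtain ⟨N', hN', hx⟩ := face_cell hS hN l
  have hz' : z ∈ polytope N' := by
    rw [hx]
    exact ⟨hzN, hull_le N l (l z) hl⟩
  have h1 : nb N ≤ nb N' := by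
    rw [hn]
    exact Nat.find_min' hex ⟨N', hN', hz', rfl⟩
  have h2 : univ.filter (fun B : Finset E => N'.IsBase (B : Set E)) ⊆
      univ.filter (fun B : Finset E => N.IsBase (B : Set E)) := by
    intro C hC
    rw [mem_filter] at hC ⊢
    refine ⟨mem_univ _, ?_⟩
    have h3 := (hx _).1 (vec_mem N' C hC.2)
    exact (vec_mem_iff N C).1 h3.1
  have h3 := eq_of_subset_of_card_le h2 h1
  have h4 : B ∈ univ.filter (fun B : Finset E => N'.IsBase (B : Set E)) := by
    rw [h3, mem_filter]
    exact ⟨mem_univ _, hB⟩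
  rw [mem_filter] at h4
  have h5 := (hx _).1 (vec_mem N' B h4.2)
  exact le_antisymm (hl B hB) (h5.2 z hzN)

/-- a cell which contains an inner point of a segment between two vertices of another cell
contains these vertices -/
theorem pair {N₁ N₂ : Matroid E} (h₁ : polytope N₁ ∈ S) (h₂ : polytope N₂ ∈ S) (B C : Finset E)
    (hB : N₂.IsBase (B : Set E)) (hC : N₂.IsBase (C : Set E)) (s : ℝ) (hs : 0 < s) (hs1 : s < 1)
    (hz : s • vec (B : Set E) + (1 - s) • vec (C : Set E) ∈ polytope N₁) :
    N₁.IsBase (B : Set E) ∧ N₁.IsBase (C : Set E) := by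
  set z := s • vec (B : Set E) + (1 - s) • vec (C : Set E) with hzdef
  have hz2 : z ∈ polytope N₂ := by
    apply (convex_convexHull ℝ _) (vec_mem N₂ B hB) (vec_mem N₂ C hC) hs.le (by linarith)
    ring
  obtain ⟨-, -, l, hl⟩ := hS.inter _ h₁ _ h₂ ⟨z, hz, hz2⟩
  have hz3 : z ∈ polytope N₁ ∩ polytope N₂ := ⟨hz, hz2⟩
  rw [hl] at hz3
  have lB := hz3.2 _ (vec_mem N₂ B hB)
  have lC := hz3.2 _ (vec_mem N₂ C hC)
  have lz : l z = s * l (vec (B : Set E)) + (1 - s) * l (vec (C : Set E)) := by
    rw [hzdef, map_add, map_smul, map_smul, smul_eq_mul, smul_eq_mul]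
  have eB : l (vec (B : Set E)) = l z := by
    apply le_antisymm lB
    by_contra hcon
    push Not at hcon
    have : (1 - s) * l (vec (C : Set E)) ≤ (1 - s) * l z := by
      apply mul_le_mul_of_nonneg_left lC
      linarith
    nlinarith
  have eC : l (vec (C : Set E)) = l z := by
    apply le_antisymm lC
    by_contra hcon
    push Not at hcon
    have : s * l (vec (B : Set E)) ≤ s * l z := mul_le_mul_of_nonneg_left lB hs.le
    have : (1 - s) * l (vec (C : Set E)) < (1 - s) * l z := by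
      apply mul_lt_mul_of_pos_left hcon
      linarith
    nlinarith
  constructor
  · rw [← vec_mem_iff]
    have : vec (B : Set E) ∈ polytope N₁ ∩ polytope N₂ := by
      rw [hl]
      refine ⟨vec_mem N₂ B hB, fun y hy => ?_⟩
      rw [eB]
      exact hz3.2 y hy
    exact this.1
  · rw [← vec_mem_iff]
    have : vec (C : Set E) ∈ polytope N₁ ∩ polytope N₂ := by
      rw [hl]
      refine ⟨vec_mem N₂ C hC, fun y hy => ?_⟩
      rw [eC]
      exact hz3.2 y hy
    exact this.1

end basics

section parallel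

variable {E : Type} [Fintype E] [DecidableEq E]

theorem base_card (N : Matroid E) (B C : Finset E) (hB : N.IsBase (B : Set E))
    (hC : N.IsBase (C : Set E)) : B.card = C.card := by
  have := hB.encard_eq_encard_of_isBase hC
  rw [Set.encard_coe_eq_coe_finsetCard, Set.encard_coe_eq_coe_finsetCard] at this
  exact_mod_cast this

/-- exchange of parallel elements -/
theorem par_base (N : Matroid E) (a a' : E) (hne : a ≠ a')
    (hno : ∀ B : Finset E, N.IsBase (B : Set E) → ¬ (a ∈ B ∧ a' ∈ B))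
    (hex : ∃ B : Finset E, N.IsBase (B : Set E) ∧ a' ∈ B) (B : Finset E)
    (hB : N.IsBase (B : Set E)) (ha : a ∈ B) :
    N.IsBase ((insert a' (B.erase a) : Finset E) : Set E) := by
  obtain ⟨B₂, hB₂, ha'⟩ := hex
  have hi : N.Indep {a'} := hB₂.indep.subset (by
    rw [Set.singleton_subset_iff]
    exact_mod_cast ha')
  obtain ⟨B', hB', h1, h2⟩ := hi.exists_isBase_subset_union_isBase hB
  obtain ⟨C, rfl⟩ := exists_fs B'
  have haC : a' ∈ C := by
    have : a' ∈ (C : Set E) := h1 rfl
    exact_mod_cast this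
  have ha'B : a' ∉ B := fun h => hno B hB ⟨ha, h⟩
  have haC' : a ∉ C := fun h => hno C hB' ⟨h, haC⟩
  have hsub : C ⊆ insert a' (B.erase a) := by
    intro x hx
    have : x ∈ ({a'} ∪ (B : Set E)) := h2 (by exact_mod_cast hx)
    rw [mem_insert, mem_erase]
    rcases this with h | h
    · left
      exact h
    · right
      refine ⟨fun h' => haC' (by rw [← h']; exact hx), by exact_mod_cast h⟩
  have hcard : (insert a' (B.erase a)).card = B.card := by
    rw [card_insert_of_notMem (fun h => ha'B (mem_of_mem_erase h)), card_erase_of_mem ha]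
    have := card_pos.2 ⟨a, ha⟩
    omega
  have h3 := base_card N B C hB hB'
  have h4 : C = insert a' (B.erase a) := eq_of_subset_of_card_le hsub (by omega)
  rw [← h4]
  exact hB'

/-- the linear map which moves the weight of `a` to `a'` -/
noncomputable def mv (a a' : E) : (E → ℝ) →ₗ[ℝ] (E → ℝ) :=
  LinearMap.id + (LinearMap.proj a).smulRight (Pi.single a' (1:ℝ) - Pi.single a (1:ℝ))

theorem mv_apply (a a' : E) (x : E → ℝ) (e : E) :
    mv a a' x e = x e + x a * ((if e = a' then 1 else 0) - (if e = a then 1 else 0)) := by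
  unfold mv
  simp only [LinearMap.add_apply, LinearMap.id_apply, LinearMap.smulRight_apply,
    LinearMap.proj_apply, Pi.add_apply, Pi.smul_apply, Pi.sub_apply, smul_eq_mul, Pi.single_apply]

theorem mv_vec_of_notMem (a a' : E) (B : Finset E) (h : a ∉ B) :
    mv a a' (vec (B : Set E)) = vec (B : Set E) := by
  funext e
  rw [mv_apply, vec_apply, vec_apply, if_neg h]
  ring

theorem mv_vec_of_mem (a a' : E) (hne : a ≠ a') (B : Finset E) (h : a ∈ B) (h' : a' ∉ B) :
    mv a a' (vec (B : Set E)) = vec ((insert a' (B.erase a) : Finset E) : Set E) := by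
  funext e
  rw [mv_apply, vec_apply, vec_apply, vec_apply, if_pos h, one_mul]
  simp only [mem_insert, mem_erase]
  by_cases h1 : e = a'
  · subst h1
    rw [if_neg h', if_pos rfl, if_neg (Ne.symm hne), if_pos (Or.inl rfl)]
    ring
  · by_cases h2 : e = a
    · subst h2
      rw [if_pos h, if_neg h1, if_pos rfl, if_neg]
      · ring
      · rintro (h3 | h3)
        · exact h1 h3
        · exact h3.1 rfl
    · rw [if_neg h1, if_neg h2]
      by_cases h3 : e ∈ B
      · rw [if_pos h3, if_pos (Or.inr ⟨h2, h3⟩)]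
        ring
      · rw [if_neg h3, if_neg]
        · ring
        · rintro (h4 | h4)
          · exact h1 h4
          · exact h3 h4.2

theorem mv_mem (N : Matroid E) (a a' : E) (hne : a ≠ a')
    (hno : ∀ B : Finset E, N.IsBase (B : Set E) → ¬ (a ∈ B ∧ a' ∈ B))
    (hex : ∃ B : Finset E, N.IsBase (B : Set E) ∧ a' ∈ B) (z : E → ℝ) (hz : z ∈ polytope N) :
    mv a a' z ∈ polytope N := by
  have h1 : polytope N ⊆ (mv a a') ⁻¹' (polytope N) := by
    apply convexHull_min
    · rintro y ⟨B, hB, rfl⟩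
      obtain ⟨C, rfl⟩ := exists_fs B
      show mv a a' (vec (C : Set E)) ∈ polytope N
      by_cases ha : a ∈ C
      · rw [mv_vec_of_mem a a' hne C ha (fun h => hno C hB ⟨ha, h⟩)]
        exact vec_mem N _ (par_base N a a' hne hno hex C hB ha)
      · rw [mv_vec_of_notMem a a' C ha]
        exact vec_mem N _ hB
    · exact (convex_convexHull ℝ _).linear_preimage (mv a a')
  exact h1 hz

/-- an element of positive weight is in a base -/
theorem exists_base_of_pos (N : Matroid E) (z : E → ℝ) (hz : z ∈ polytope N) (a : E)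
    (ha : 0 < z a) : ∃ B : Finset E, N.IsBase (B : Set E) ∧ a ∈ B := by
  by_contra hcon
  push Not at hcon
  have h1 := hull_le N (LinearMap.proj a) 0 (by
    intro B hB
    rw [LinearMap.proj_apply, vec_apply, if_neg (hcon B hB)]) z hz
  rw [LinearMap.proj_apply] at h1
  linarith

variable {M : Matroid E} {S : Set (Set (E → ℝ))} (hS : IsMatroidSubdivision M S)

include hS

/-- The exchange of parallel elements preserves the pairs of bases which are in a common cell. -/
theorem swap (w : E → ℝ) (v : ℝ) (a a' : E) (hne : a ≠ a') (B₁ B₂ C₁ C₂ : Finset E)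
    (hB₁ : M.IsBase (B₁ : Set E)) (hB₂ : M.IsBase (B₂ : Set E))
    (hC₁ : M.IsBase (C₁ : Set E)) (hC₂ : M.IsBase (C₂ : Set E))
    (ha₁ : a ∈ B₁) (ha'₁ : a' ∉ B₁) (ha'₂ : a' ∉ B₂) (e₁ : C₁ = insert a' (B₁.erase a))
    (e₂ : (a ∈ B₂ ∧ C₂ = insert a' (B₂.erase a)) ∨ (a ∉ B₂ ∧ C₂ = B₂))
    (hw : ∀ B : Finset E, M.IsBase (B : Set E) → ∑ e ∈ B, w e ≤ v)
    (wB₁ : ∑ e ∈ B₁, w e = v) (wB₂ : ∑ e ∈ B₂, w e = v)
    (wC₁ : ∑ e ∈ C₁, w e = v) (wC₂ : ∑ e ∈ C₂, w e = v)
    (hno : ∀ B : Finset E, M.IsBase (B : Set E) → ∑ e ∈ B, w e = v → ¬ (a ∈ B ∧ a' ∈ B))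
    (D : Matroid E) (hD : polytope D ∈ S) (hD₁ : D.IsBase (C₁ : Set E))
    (hD₂ : D.IsBase (C₂ : Set E)) :
    ∃ N : Matroid E, polytope N ∈ S ∧ N.IsBase (B₁ : Set E) ∧ N.IsBase (B₂ : Set E) := by
  set z : E → ℝ := (1/2 : ℝ) • ((1/2 : ℝ) • vec (B₁ : Set E) + (1/2 : ℝ) • vec (B₂ : Set E)) +
    (1/2 : ℝ) • ((1/2 : ℝ) • vec (C₁ : Set E) + (1/2 : ℝ) • vec (C₂ : Set E)) with hz
  have hcv : Convex ℝ (polytope M) := convex_convexHull ℝ _
  have hzM : z ∈ polytope M := by
    apply hcv _ _ (by norm_num) (by norm_num) (by norm_num)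
    · exact hcv (vec_mem M B₁ hB₁) (vec_mem M B₂ hB₂) (by norm_num) (by norm_num) (by norm_num)
    · exact hcv (vec_mem M C₁ hC₁) (vec_mem M C₂ hC₂) (by norm_num) (by norm_num) (by norm_num)
  obtain ⟨N, hN, hzN, hmin⟩ := min_cell hS hzM
  have lz : wl w z = v := by
    rw [hz]
    simp only [map_add, map_smul, wl_vec, smul_eq_mul, wB₁, wB₂, wC₁, wC₂]
    ring
  have hnoN : ∀ B : Finset E, N.IsBase (B : Set E) → ¬ (a ∈ B ∧ a' ∈ B) := by
    intro B hB
    apply hno B (cell_base hS hN hB)
    have h1 := hmin (wl w) (by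
      intro C hC
      rw [lz, wl_vec]
      exact hw C (cell_base hS hN hC)) B hB
    rw [wl_vec, lz] at h1
    exact h1
  have za : 0 < z a := by
    rw [hz]
    simp only [Pi.add_apply, Pi.smul_apply, smul_eq_mul, vec_apply, if_pos ha₁]
    split_ifs <;> norm_num
  have ha'C₁ : a' ∈ C₁ := by rw [e₁]; exact mem_insert_self _ _
  have haC₁ : a ∉ C₁ := by
    rw [e₁, mem_insert, mem_erase]
    rintro (h | h)
    · exact hne h
    · exact h.1 rfl
  have za' : 0 < z a' := by
    rw [hz]
    simp only [Pi.add_apply, Pi.smul_apply, smul_eq_mul, vec_apply, if_pos ha'C₁]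
    split_ifs <;> norm_num
  have ex := exists_base_of_pos N z hzN a za
  have ex' := exists_base_of_pos N z hzN a' za'
  have hmv := mv_mem N a a' hne hnoN ex' z hzN
  have haC₂ : a ∉ C₂ := by
    rcases e₂ with ⟨h, e⟩ | ⟨h, e⟩
    · rw [e, mem_insert, mem_erase]
      rintro (h | h)
      · exact hne h
      · exact h.1 rfl
    · rw [e]
      exact h
  have e3 : mv a a' z = (1/2 : ℝ) • vec (C₁ : Set E) + (1 - 1/2 : ℝ) • vec (C₂ : Set E) := by
    have f1 : mv a a' (vec (B₁ : Set E)) = vec (C₁ : Set E) := by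
      rw [mv_vec_of_mem a a' hne B₁ ha₁ ha'₁, e₁]
    have f2 : mv a a' (vec (B₂ : Set E)) = vec (C₂ : Set E) := by
      rcases e₂ with ⟨h, e⟩ | ⟨h, e⟩
      · rw [mv_vec_of_mem a a' hne B₂ h ha'₂, e]
      · rw [mv_vec_of_notMem a a' B₂ h, e]
    have f3 := mv_vec_of_notMem a a' C₁ haC₁
    have f4 := mv_vec_of_notMem a a' C₂ haC₂
    rw [hz]
    simp only [map_add, map_smul, f1, f2, f3, f4]
    funext e
    simp only [Pi.add_apply, Pi.smul_apply, smul_eq_mul]
    ring
  rw [e3] at hmv
  obtain ⟨g1, g2⟩ := pair hS hN hD C₁ C₂ hD₁ hD₂ (1/2) (by norm_num) (by norm_num) hmv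
  have hnoN' : ∀ B : Finset E, N.IsBase (B : Set E) → ¬ (a' ∈ B ∧ a ∈ B) :=
    fun B hB h => hnoN B hB ⟨h.2, h.1⟩
  have back : ∀ B : Finset E, a ∈ B → a' ∉ B →
      insert a ((insert a' (B.erase a)).erase a') = B := by
    intro B h1 h2
    rw [erase_insert (fun h => h2 (mem_of_mem_erase h)), insert_erase h1]
  refine ⟨N, hN, ?_, ?_⟩
  · have h1 := par_base N a' a hne.symm hnoN' ex C₁ g1 ha'C₁
    rw [e₁, back B₁ ha₁ ha'₁] at h1
    exact h1
  · rcases e₂ with ⟨h, e⟩ | ⟨h, e⟩
    · have ha'C₂ : a' ∈ C₂ := by rw [e]; exact mem_insert_self _ _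
      have h1 := par_base N a' a hne.symm hnoN' ex C₂ g2 ha'C₂
      rw [e, back B₂ h ha'₂] at h1
      exact h1
    · rw [← e]
      exact g2

end parallel

end Pool.Agent.Q163.PG
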