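import Mathlib
import Pool.Agent.Q163.PG.Poly

set_option autoImplicit false
set_option linter.unusedSectionVars false
set_option linter.unusedVariables false

/-!
Matroid subdivisions on a contraction of rank two: the splits.
-/

namespace Pool.Agent.Q163.PG

open Finset

variable {E : Type} [Fintype E] [DecidableEq E]

/-- no cell contains both bases `I ∪ {a, b}` and `I ∪ {c, d}` -/
def sig (S : Set (Set (E → ℝ))) (I : Finset E) (a b c d : E) : Prop :=
  ∀ N : Matroid E, polytope N ∈ S → N.IsBase ((insert a (insert b I) : Finset E) : Set E) →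
    ¬ N.IsBase ((insert c (insert d I) : Finset E) : Set E)

theorem sig_symm {S : Set (Set (E → ℝ))} {I : Finset E} {a b c d : E} (h : sig S I a b c d) :
    sig S I c d a b := fun N hN h1 h2 => h N hN h2 h1

theorem sig_comm {S : Set (Set (E → ℝ))} {I : Finset E} {a b c d : E} (h : sig S I a b c d) :
    sig S I b a c d := fun N hN h1 h2 => h N hN (by rw [insert_comm]; exact h1) h2

/-- the weights which are used -/
def wt (P Q : Finset E) (e : E) : ℝ := if e ∈ P then 1 else if e ∈ Q then 0 else -1

theorem sum_wt (P Q B : Finset E) :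
    ∑ e ∈ B, wt P Q e = (B ∩ P).card - (B \ (P ∪ Q)).card := by
  have e1 : B = (B ∩ P) ∪ (((B \ P) ∩ Q) ∪ (B \ (P ∪ Q))) := by
    ext x; simp only [mem_union, mem_inter, mem_sdiff]; tauto
  have d1 : Disjoint (B ∩ P) (((B \ P) ∩ Q) ∪ (B \ (P ∪ Q))) := by
    rw [Finset.disjoint_left]
    intro x hx hx'
    simp only [mem_union, mem_inter, mem_sdiff] at hx hx'
    tauto
  have d2 : Disjoint ((B \ P) ∩ Q) (B \ (P ∪ Q)) := by
    rw [Finset.disjoint_left]
    intro x hx hx'
    simp only [mem_union, mem_inter, mem_sdiff] at hx hx'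
    tauto
  conv_lhs => rw [e1]
  rw [sum_union d1, sum_union d2]
  have s1 : ∑ e ∈ B ∩ P, wt P Q e = (B ∩ P).card := by
    rw [sum_congr rfl (fun e he => show wt P Q e = 1 from if_pos (mem_inter.1 he).2)]
    simp
  have s2 : ∑ e ∈ (B \ P) ∩ Q, wt P Q e = 0 := by
    apply sum_eq_zero
    intro e he
    simp only [mem_inter, mem_sdiff] at he
    unfold wt
    rw [if_neg he.1.2, if_pos he.2]
  have s3 : ∑ e ∈ B \ (P ∪ Q), wt P Q e = -(B \ (P ∪ Q)).card := by
    rw [sum_congr rfl (fun e he => show wt P Q e = -1 from by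
      simp only [mem_sdiff, mem_union, not_or] at he
      unfold wt
      rw [if_neg he.2.1, if_neg he.2.2])]
    simp
  rw [s1, s2, s3]
  ring

theorem sum_wt_le (P Q B : Finset E) : ∑ e ∈ B, wt P Q e ≤ P.card := by
  rw [sum_wt]
  have h1 : ((B ∩ P).card : ℝ) ≤ P.card := by exact_mod_cast card_le_card inter_subset_right
  have h2 : (0 : ℝ) ≤ (B \ (P ∪ Q)).card := by positivity
  linarith

theorem sum_wt_eq (P Q B : Finset E) :
    ∑ e ∈ B, wt P Q e = P.card ↔ P ⊆ B ∧ B ⊆ P ∪ Q := by
  rw [sum_wt]
  constructor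
  · intro h
    have h1 : (B ∩ P).card ≤ P.card := card_le_card inter_subset_right
    have h2 : ((B ∩ P).card : ℝ) = P.card + (B \ (P ∪ Q)).card := by linarith
    have h3 : (B ∩ P).card = P.card + (B \ (P ∪ Q)).card := by exact_mod_cast h2
    have h4 : (B \ (P ∪ Q)).card = 0 := by omega
    have h5 : B ∩ P = P := eq_of_subset_of_card_le inter_subset_right (by omega)
    rw [card_eq_zero, sdiff_eq_empty_iff_subset] at h4
    exact ⟨inter_eq_right.1 h5, h4⟩
  · rintro ⟨h1, h2⟩
    rw [inter_eq_right.2 h1, sdiff_eq_empty_iff_subset.2 h2]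
    simp

/-- the sum of two coordinates -/
noncomputable def sm (p q : E) : (E → ℝ) →ₗ[ℝ] ℝ :=
  (LinearMap.proj p : (E → ℝ) →ₗ[ℝ] ℝ) + (LinearMap.proj q : (E → ℝ) →ₗ[ℝ] ℝ)

theorem sm_apply (p q : E) (u : E → ℝ) : sm p q u = u p + u q := rfl

theorem sm_neg (p q : E) (u : E → ℝ) : (-(sm p q)) u = -(u p + u q) := rfl

/-- a base which contains `I` and is contained in `I ∪ L` -/
theorem base_form {I L B : Finset E} (h1 : I ⊆ B) (h2 : B ⊆ I ∪ L) (hc : B.card = I.card + 2) :
    ∃ x ∈ L, ∃ y ∈ L, x ≠ y ∧ x ∉ I ∧ y ∉ I ∧ B = insert x (insert y I) := by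
  have h3 : (B \ I).card = 2 := by
    have := card_sdiff_add_card_eq_card h1
    omega
  obtain ⟨x, y, hxy, he⟩ := card_eq_two.1 h3
  have hx : x ∈ B \ I := by rw [he]; simp
  have hy : y ∈ B \ I := by rw [he]; simp
  rw [mem_sdiff] at hx hy
  refine ⟨x, ?_, y, ?_, hxy, hx.2, hy.2, ?_⟩
  · exact (mem_union.1 (h2 hx.1)).resolve_left hx.2
  · exact (mem_union.1 (h2 hy.1)).resolve_left hy.2
  · have h4 : B = I ∪ (B \ I) := by
      rw [union_sdiff_of_subset h1]
    rw [h4, he]
    ext e
    simp only [mem_union, mem_insert, mem_singleton]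
    tauto

section split

variable {M : Matroid E} {S : Set (Set (E → ℝ))} (hS : IsMatroidSubdivision M S)

include hS

/-- at most one pair of opposite vertices of an octahedron is separated -/
theorem octahedron (I : Finset E) (x y y' d : E) (hx : x ∉ I) (hy : y ∉ I) (hy' : y' ∉ I)
    (hd : d ∉ I) (n1 : x ≠ y) (n2 : x ≠ y') (n3 : x ≠ d) (n4 : y ≠ y') (n5 : y ≠ d) (n6 : y' ≠ d)
    (b1 : M.IsBase ((insert x (insert y I) : Finset E) : Set E))
    (b2 : M.IsBase ((insert y' (insert d I) : Finset E) : Set E))
    (s1 : sig S I x y y' d) (s2 : sig S I x y' y d) : False := by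
  set z : E → ℝ := (1/2 : ℝ) • vec ((insert x (insert y I) : Finset E) : Set E) +
    (1/2 : ℝ) • vec ((insert y' (insert d I) : Finset E) : Set E) with hz
  have hzM : z ∈ polytope M := (convex_convexHull ℝ _) (vec_mem M _ b1) (vec_mem M _ b2)
    (by norm_num) (by norm_num) (by norm_num)
  obtain ⟨N, hN, hzN, hmin⟩ := min_cell hS hzM
  have hcard : ∀ B : Finset E, N.IsBase (B : Set E) → B.card = I.card + 2 := by
    intro B hB
    rw [base_card M B _ (cell_base hS hN hB) b1, card_insert_of_notMem, card_insert_of_notMem hy]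
    rw [mem_insert]
    rintro (h | h)
    · exact n1 h
    · exact hx h
  -- the form of the bases of `N`
  have t1 : ∑ e ∈ (insert x (insert y I)), wt I {x, y, y', d} e = I.card := by
    rw [sum_wt_eq]
    constructor
    · exact (subset_insert _ _).trans (subset_insert _ _)
    · intro e he
      simp only [mem_insert, mem_union, mem_singleton] at he ⊢
      tauto
  have t2 : ∑ e ∈ (insert y' (insert d I)), wt I {x, y, y', d} e = I.card := by
    rw [sum_wt_eq]
    constructor
    · exact (subset_insert _ _).trans (subset_insert _ _)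
    · intro e he
      simp only [mem_insert, mem_union, mem_singleton] at he ⊢
      tauto
  have lz : wl (wt I {x, y, y', d}) z = I.card := by
    rw [hz]
    simp only [map_add, map_smul, wl_vec, smul_eq_mul, t1, t2]
    ring
  have hform : ∀ B : Finset E, N.IsBase (B : Set E) → I ⊆ B ∧ B ⊆ I ∪ {x, y, y', d} := by
    intro B hB
    have h1 := hmin (wl (wt I {x, y, y', d})) (by
      intro C _
      rw [wl_vec, lz]
      exact sum_wt_le _ _ _) B hB
    rw [wl_vec, lz, sum_wt_eq] at h1
    exact h1
  -- the values of the coordinates of `z`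
  have vz : ∀ e, e ∈ ({x, y, y', d} : Finset E) → z e = 1/2 := by
    intro e he
    rw [hz]
    simp only [Pi.add_apply, Pi.smul_apply, smul_eq_mul, vec_apply, mem_insert]
    simp only [mem_insert, mem_singleton] at he
    rcases he with rfl | rfl | rfl | rfl
    · simp [n2, n3, hx]
    · simp [n4, n5, hy]
    · simp [n2.symm, n4.symm, hy']
    · simp [n3.symm, n5.symm, hd]
  -- separation for a pair
  have key : ∀ p q s t : E, ({p, q, s, t} : Finset E) = {x, y, y', d} → p ≠ q → p ≠ s → p ≠ t →
      q ≠ s → q ≠ t → s ≠ t → p ∉ I → q ∉ I → s ∉ I → t ∉ I → sig S I p q s t →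
      ∀ B : Finset E, N.IsBase (B : Set E) → (p ∈ B ∧ q ∉ B) ∨ (p ∉ B ∧ q ∈ B) := by
    intro p q s t hset m1 m2 m3 m4 m5 m6 ip iq is it hsig
    have hp : p ∈ ({x, y, y', d} : Finset E) := by rw [← hset]; simp
    have hq : q ∈ ({x, y, y', d} : Finset E) := by rw [← hset]; simp
    -- the bases with both or none
    have both : ∀ B : Finset E, N.IsBase (B : Set E) → p ∈ B → q ∈ B →
        B = insert p (insert q I) := by
      intro B hB h1 h2
      symm
      apply eq_of_subset_of_card_le
      · exact insert_subset h1 (insert_subset h2 (hform B hB).1)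
      · rw [hcard B hB, card_insert_of_notMem, card_insert_of_notMem iq]
        rw [mem_insert]
        rintro (h | h)
        · exact m1 h
        · exact ip h
    have none : ∀ B : Finset E, N.IsBase (B : Set E) → p ∉ B → q ∉ B →
        B = insert s (insert t I) := by
      intro B hB h1 h2
      have h3 : B ⊆ insert s (insert t I) := by
        intro e he
        have h4 := (hform B hB).2 he
        rw [← hset] at h4
        simp only [mem_union, mem_insert, mem_singleton] at h4 ⊢
        rcases h4 with h4 | rfl | rfl | h4 | h4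
        · exact Or.inr (Or.inr h4)
        · exact absurd he h1
        · exact absurd he h2
        · exact Or.inl h4
        · exact Or.inr (Or.inl h4)
      apply eq_of_subset_of_card_le h3
      rw [hcard B hB]
      exact card_insert_le _ _ |>.trans (by
        have := card_insert_le t I
        omega)
    by_cases hpq : N.IsBase ((insert p (insert q I) : Finset E) : Set E)
    · -- then the other one is not a base
      have hst := hsig N hN hpq
      intro B hB
      have h1 := hmin (-(sm p q)) (by
        intro C hC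
        rw [sm_neg, sm_neg, vec_apply, vec_apply, vz p hp, vz q hq]
        by_cases c1 : p ∈ C
        · rw [if_pos c1]
          split_ifs <;> norm_num
        · by_cases c2 : q ∈ C
          · rw [if_neg c1, if_pos c2]
            norm_num
          · exfalso
            apply hst
            rw [← none C hC c1 c2]
            exact hC) B hB
      rw [sm_neg, sm_neg, vec_apply, vec_apply, vz p hp, vz q hq] at h1
      by_cases c1 : p ∈ B <;> by_cases c2 : q ∈ B
      · rw [if_pos c1, if_pos c2] at h1
        norm_num at h1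
      · exact Or.inl ⟨c1, c2⟩
      · exact Or.inr ⟨c1, c2⟩
      · rw [if_neg c1, if_neg c2] at h1
        norm_num at h1
    · intro B hB
      have h1 := hmin (sm p q) (by
        intro C hC
        rw [sm_apply, sm_apply, vec_apply, vec_apply, vz p hp, vz q hq]
        by_cases c1 : p ∈ C
        · by_cases c2 : q ∈ C
          · exfalso
            apply hpq
            rw [← both C hC c1 c2]
            exact hC
          · rw [if_pos c1, if_neg c2]
            norm_num
        · rw [if_neg c1]
          split_ifs <;> norm_num) B hB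
      rw [sm_apply, sm_apply, vec_apply, vec_apply, vz p hp, vz q hq] at h1
      by_cases c1 : p ∈ B <;> by_cases c2 : q ∈ B
      · rw [if_pos c1, if_pos c2] at h1
        norm_num at h1
      · exact Or.inl ⟨c1, c2⟩
      · exact Or.inr ⟨c1, c2⟩
      · rw [if_neg c1, if_neg c2] at h1
        norm_num at h1
  have k1 := key x y y' d rfl n1 n2 n3 n4 n5 n6 hx hy hy' hd s1
  have k2 := key x y' y d (by
    ext e
    simp only [mem_insert, mem_singleton]
    tauto) n2 n1 n3 n4.symm n6 n5 hx hy' hy hd s2
  obtain ⟨B₁, hB₁, hx₁⟩ := exists_base_of_pos N z hzN x (by rw [vz x (by simp)]; norm_num)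
  obtain ⟨B₂, hB₂, hy₂⟩ := exists_base_of_pos N z hzN y (by rw [vz y (by simp)]; norm_num)
  have a1 : y ∉ B₁ := by
    rcases k1 B₁ hB₁ with h | h
    · exact h.2
    · exact absurd hx₁ h.1
  have a2 : y' ∉ B₁ := by
    rcases k2 B₁ hB₁ with h | h
    · exact h.2
    · exact absurd hx₁ h.1
  have a3 : x ∉ B₂ := by
    rcases k1 B₂ hB₂ with h | h
    · exact absurd hy₂ h.2
    · exact h.1
  have a5 : d ∈ B₁ := by
    by_contra hd₁
    have h1 : B₁ ⊆ insert x I := by
      intro e he
      have h4 := (hform B₁ hB₁).2 he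
      simp only [mem_union, mem_insert, mem_singleton] at h4 ⊢
      rcases h4 with h4 | h4 | rfl | rfl | rfl
      · exact Or.inr h4
      · exact Or.inl h4
      · exact absurd he a1
      · exact absurd he a2
      · exact absurd he hd₁
    have h2 := card_le_card h1
    rw [hcard B₁ hB₁] at h2
    have h3 := card_insert_le x I
    omega
  obtain ⟨e, he, heB⟩ := hB₁.exchange hB₂ (e := x) ⟨by exact_mod_cast hx₁, by exact_mod_cast a3⟩
  have he2 : e ∈ B₂ := by exact_mod_cast he.1
  have he1 : e ∉ B₁ := fun h => he.2 (by exact_mod_cast h)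
  have hset : insert e ((B₁ : Set E) \ {x}) = ((insert e (B₁.erase x) : Finset E) : Set E) := by
    rw [coe_insert, coe_erase]
  rw [hset] at heB
  have he3 : e = y ∨ e = y' := by
    have h4 := (hform B₂ hB₂).2 he2
    simp only [mem_union, mem_insert, mem_singleton] at h4
    rcases h4 with h4 | rfl | h4 | h4 | rfl
    · exact absurd ((hform B₁ hB₁).1 h4) he1
    · exact absurd hx₁ he1
    · exact Or.inl h4
    · exact Or.inr h4
    · exact absurd a5 he1
  rcases he3 with rfl | rfl
  · rcases k2 _ heB with h | h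
    · have := h.1
      rw [mem_insert, mem_erase] at this
      rcases this with h' | h'
      · exact n1 h'
      · exact h'.1 rfl
    · have := h.2
      rw [mem_insert, mem_erase] at this
      rcases this with h' | h'
      · exact n4 h'.symm
      · exact a2 h'.2
  · rcases k1 _ heB with h | h
    · have := h.1
      rw [mem_insert, mem_erase] at this
      rcases this with h' | h'
      · exact n2 h'
      · exact h'.1 rfl
    · have := h.2
      rw [mem_insert, mem_erase] at this
      rcases this with h' | h'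
      · exact n4 h'
      · exact a1 h'.2

/-- a split: the two sides have at least two elements and are separated -/
def IsSplit (S : Set (Set (E → ℝ))) (I L P : Finset E) : Prop :=
  P ⊆ L ∧ 2 ≤ P.card ∧ 2 ≤ (L \ P).card ∧
    ∀ x ∈ P, ∀ y ∈ P, x ≠ y → ∀ s ∈ L \ P, ∀ t ∈ L \ P, s ≠ t → sig S I x y s t

/-- crossing splits leave nothing outside -/
theorem crossing (I L P Q : Finset E) (hd : Disjoint I L)
    (hb : ∀ x ∈ L, ∀ y ∈ L, x ≠ y → M.IsBase ((insert x (insert y I) : Finset E) : Set E))
    (hP : IsSplit S I L P) (hQ : IsSplit S I L Q) (x y y' d : E) (hx : x ∈ P) (hx' : x ∈ Q)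
    (hy : y ∈ P) (hyQ : y ∉ Q) (hy' : y' ∈ Q) (hy'P : y' ∉ P) (hdL : d ∈ L) (hdP : d ∉ P)
    (hdQ : d ∉ Q) : False := by
  have dj : ∀ e ∈ L, e ∉ I := fun e he => Finset.disjoint_right.1 hd he
  have xL := hP.1 hx
  have yL := hP.1 hy
  have y'L := hQ.1 hy'
  have n1 : x ≠ y := fun h => hyQ (h ▸ hx')
  have n2 : x ≠ y' := fun h => hy'P (h ▸ hx)
  have n3 : x ≠ d := fun h => hdP (h ▸ hx)
  have n4 : y ≠ y' := fun h => hy'P (h ▸ hy)
  have n5 : y ≠ d := fun h => hdP (h ▸ hy)
  have n6 : y' ≠ d := fun h => hdQ (h ▸ hy')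
  exact octahedron hS I x y y' d (dj x xL) (dj y yL) (dj y' y'L) (dj d hdL) n1 n2 n3 n4 n5 n6
    (hb x xL y yL n1) (hb y' y'L d hdL n6)
    (hP.2.2.2 x hx y hy n1 y' (mem_sdiff.2 ⟨y'L, hy'P⟩) d (mem_sdiff.2 ⟨hdL, hdP⟩) n6)
    (hQ.2.2.2 x hx' y' hy' n2 y (mem_sdiff.2 ⟨yL, hyQ⟩) d (mem_sdiff.2 ⟨hdL, hdQ⟩) n5)

/-- a separated quadruple gives a split -/
theorem exists_split (I L : Finset E) (hd : Disjoint I L) (hL : 3 ≤ L.card)
    (hb : ∀ x ∈ L, ∀ y ∈ L, x ≠ y → M.IsBase ((insert x (insert y I) : Finset E) : Set E))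
    (a b c d : E) (ha : a ∈ L) (hb' : b ∈ L) (hc : c ∈ L) (hd' : d ∈ L) (hab : a ≠ b) (hcd : c ≠ d)
    (hs : sig S I a b c d) : ∃ P, IsSplit S I L P := by
  classical
  have dj : ∀ e ∈ L, e ∉ I := fun e he => Finset.disjoint_right.1 hd he
  set 𝓕 := univ.filter (fun B : Finset E => M.IsBase (B : Set E) ∧ I ⊆ B ∧ B ⊆ I ∪ L) with h𝓕
  have mem𝓕 : ∀ B : Finset E, B ∈ 𝓕 ↔ M.IsBase (B : Set E) ∧ I ⊆ B ∧ B ⊆ I ∪ L := by
    intro B
    rw [h𝓕, mem_filter]
    simp
  have pair𝓕 : ∀ x ∈ L, ∀ y ∈ L, x ≠ y → insert x (insert y I) ∈ 𝓕 := by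
    intro x hx y hy hxy
    rw [mem𝓕]
    refine ⟨hb x hx y hy hxy, (subset_insert _ _).trans (subset_insert _ _), ?_⟩
    intro e he
    rw [mem_insert, mem_insert] at he
    rw [mem_union]
    rcases he with rfl | rfl | h
    · exact Or.inr hx
    · exact Or.inr hy
    · exact Or.inl h
  have hne : 𝓕.Nonempty := ⟨_, pair𝓕 a ha b hb' hab⟩
  have hcpos : (0 : ℝ) < 𝓕.card := by exact_mod_cast hne.card_pos
  set z : E → ℝ := ∑ B ∈ 𝓕, ((𝓕.card : ℝ)⁻¹) • vec (B : Set E) with hz
  have hzM : z ∈ polytope M := by
    apply (convex_convexHull ℝ _).sum_mem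
    · intro B _
      positivity
    · rw [sum_const, nsmul_eq_mul, mul_inv_cancel₀ hcpos.ne']
    · intro B hB
      exact vec_mem M B ((mem𝓕 B).1 hB).1
  have hstrict : ∀ (l : (E → ℝ) →ₗ[ℝ] ℝ) (c : ℝ), (∀ B ∈ 𝓕,
      l (vec (B : Set E)) ≤ c) → (∃ B ∈ 𝓕, l (vec (B : Set E)) < c) → l z < c := by
    intro l c h1 ⟨B₀, hB₀, h2⟩
    rw [hz, map_sum]
    simp only [map_smul, smul_eq_mul]
    rw [← mul_sum]
    have h3 : ∑ B ∈ 𝓕, l (vec (B : Set E)) < ∑ B ∈ 𝓕, c :=
      sum_lt_sum (fun B hB => h1 B hB) ⟨B₀, hB₀, h2⟩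
    rw [sum_const, nsmul_eq_mul] at h3
    rw [inv_mul_lt_iff₀ hcpos]
    exact h3
  obtain ⟨N, hN, hzN, hmin⟩ := min_cell hS hzM
  have hcard0 : (insert a (insert b I)).card = I.card + 2 := by
    rw [card_insert_of_notMem, card_insert_of_notMem (dj b hb')]
    rw [mem_insert]
    rintro (h | h)
    · exact hab h
    · exact dj a ha h
  have hcard : ∀ B : Finset E, N.IsBase (B : Set E) → B.card = I.card + 2 := by
    intro B hB
    rw [base_card M B _ (cell_base hS hN hB) (hb a ha b hb' hab), hcard0]
  have lz : wl (wt I L) z = I.card := by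
    rw [hz, map_sum]
    simp only [map_smul, smul_eq_mul, wl_vec]
    rw [← mul_sum, sum_congr rfl (fun B hB => (sum_wt_eq I L B).2 ((mem𝓕 B).1 hB).2), sum_const,
      nsmul_eq_mul, ← mul_assoc, inv_mul_cancel₀ hcpos.ne', one_mul]
  have hform : ∀ B : Finset E, N.IsBase (B : Set E) → I ⊆ B ∧ B ⊆ I ∪ L := by
    intro B hB
    have h1 := hmin (wl (wt I L)) (by
      intro C _
      rw [wl_vec, lz]
      exact sum_wt_le _ _ _) B hB
    rw [wl_vec, lz, sum_wt_eq] at h1
    exact h1
  -- every point of `L` is in a base of `N` and outside of another one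
  have hpos : ∀ x ∈ L, ∃ B : Finset E, N.IsBase (B : Set E) ∧ x ∈ B := by
    intro x hx
    apply exists_base_of_pos N z hzN
    have h1 := hstrict (-(LinearMap.proj x)) 0 (by
      intro B hB
      rw [LinearMap.neg_apply, LinearMap.proj_apply, vec_apply]
      split_ifs <;> norm_num) (by
      obtain ⟨y, hy, hyx⟩ : ∃ y ∈ L, y ≠ x := by
        by_contra hcon
        push Not at hcon
        have : L ⊆ {x} := fun y hy => mem_singleton.2 (hcon y hy)
        have := card_le_card this
        simp at this
        omega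
      refine ⟨_, pair𝓕 x hx y hy hyx.symm, ?_⟩
      rw [LinearMap.neg_apply, LinearMap.proj_apply, vec_apply, if_pos (mem_insert_self _ _)]
      norm_num)
    rw [LinearMap.neg_apply, LinearMap.proj_apply] at h1
    linarith
  have hlt : ∀ x ∈ L, ∃ B : Finset E, N.IsBase (B : Set E) ∧ x ∉ B := by
    intro x hx
    by_contra hcon
    push Not at hcon
    have h1 := hstrict (LinearMap.proj x) 1 (by
      intro B hB
      rw [LinearMap.proj_apply, vec_apply]
      split_ifs <;> norm_num) (by
      have h2 : 1 < (L.erase x).card := by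
        rw [card_erase_of_mem hx]
        omega
      obtain ⟨y, hy, t, ht, hyt⟩ := one_lt_card.1 h2
      rw [mem_erase] at hy ht
      refine ⟨_, pair𝓕 y hy.2 t ht.2 hyt, ?_⟩
      rw [LinearMap.proj_apply, vec_apply, if_neg]
      · norm_num
      · rw [mem_insert, mem_insert]
        rintro (h | h | h)
        · exact hy.1 h.symm
        · exact ht.1 h.symm
        · exact dj x hx h)
    have h3 := hull_le N (-(LinearMap.proj x)) (-1) (by
      intro B hB
      rw [LinearMap.neg_apply, LinearMap.proj_apply, vec_apply, if_pos (hcon B hB)]) z hzN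
    rw [LinearMap.neg_apply, LinearMap.proj_apply] at h3
    rw [LinearMap.proj_apply] at h1
    linarith
  -- transitivity
  have trans : ∀ x ∈ L, ∀ y ∈ L, ∀ t ∈ L,
      ¬ N.IsBase ((insert x (insert y I) : Finset E) : Set E) →
      ¬ N.IsBase ((insert y (insert t I) : Finset E) : Set E) →
      y ≠ x → y ≠ t → ¬ N.IsBase ((insert x (insert t I) : Finset E) : Set E) := by
    intro x hx y hy t ht h1 h2 hyx hyt h3
    obtain ⟨B₂, hB₂, hy₂⟩ := hpos y hy
    have hi : N.Indep {y} := hB₂.indep.subset (by
      rw [Set.singleton_subset_iff]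
      exact_mod_cast hy₂)
    obtain ⟨C', hC, g1, g2⟩ := hi.exists_isBase_subset_union_isBase h3
    obtain ⟨C, rfl⟩ := exists_fs C'
    have hyC : y ∈ C := by
      have : y ∈ (C : Set E) := g1 rfl
      exact_mod_cast this
    have hIC := (hform C hC).1
    have hCc := hcard C hC
    have hsubC : ∀ e ∈ C, e = y ∨ e = x ∨ e = t ∨ e ∈ I := by
      intro e he
      have : e ∈ ({y} ∪ ((insert x (insert t I) : Finset E) : Set E)) := g2 (by exact_mod_cast he)
      rcases this with h | h
      · exact Or.inl h
      · have h' : e ∈ insert x (insert t I) := by exact_mod_cast h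
        rw [mem_insert, mem_insert] at h'
        exact Or.inr h'
    by_cases hxC : x ∈ C
    · apply h1
      have h4 : insert x (insert y I) ⊆ C := insert_subset hxC (insert_subset hyC hIC)
      have h5 : insert x (insert y I) = C := by
        apply eq_of_subset_of_card_le h4
        rw [hCc, card_insert_of_notMem, card_insert_of_notMem (dj y hy)]
        rw [mem_insert]
        rintro (h | h)
        · exact hyx h.symm
        · exact dj x hx h
      rw [h5]
      exact hC
    · apply h2
      have h4 : C ⊆ insert y (insert t I) := by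
        intro e he
        rw [mem_insert, mem_insert]
        rcases hsubC e he with h | h | h | h
        · exact Or.inl h
        · exact absurd (h ▸ he) hxC
        · exact Or.inr (Or.inl h)
        · exact Or.inr (Or.inr h)
      have h5 : C = insert y (insert t I) := by
        apply eq_of_subset_of_card_le h4
        rw [hCc]
        have q1 := card_insert_le y (insert t I)
        have q2 := card_insert_le t I
        omega
      rw [← h5]
      exact hC
  -- a pair which is missing
  obtain ⟨x₀, hx₀, y₀, hy₀, hxy₀, hmiss⟩ : ∃ x₀ ∈ L, ∃ y₀ ∈ L, x₀ ≠ y₀ ∧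
      ¬ N.IsBase ((insert x₀ (insert y₀ I) : Finset E) : Set E) := by
    by_cases h : N.IsBase ((insert a (insert b I) : Finset E) : Set E)
    · exact ⟨c, hc, d, hd', hcd, hs N hN h⟩
    · exact ⟨a, ha, b, hb', hab, h⟩
  set P := L.filter (fun y => y = x₀ ∨ ¬ N.IsBase ((insert x₀ (insert y I) : Finset E) : Set E))
    with hP
  have memP : ∀ y, y ∈ P ↔ y ∈ L ∧
      (y = x₀ ∨ ¬ N.IsBase ((insert x₀ (insert y I) : Finset E) : Set E)) := by
    intro y
    rw [hP, mem_filter]
  have notP : ∀ y, y ∈ L \ P → y ∈ L ∧ y ≠ x₀ ∧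
      N.IsBase ((insert x₀ (insert y I) : Finset E) : Set E) := by
    intro y hy
    rw [mem_sdiff, memP] at hy
    refine ⟨hy.1, ?_, ?_⟩
    · intro h
      exact hy.2 ⟨hy.1, Or.inl h⟩
    · by_contra h
      exact hy.2 ⟨hy.1, Or.inr h⟩
  -- two elements of `P`
  have inP : ∀ x ∈ P, ∀ y ∈ P, x ≠ y →
      ¬ N.IsBase ((insert x (insert y I) : Finset E) : Set E) := by
    intro x hx y hy hxy
    rw [memP] at hx hy
    by_cases h1 : x = x₀
    · subst h1
      rcases hy.2 with h | h
      · exact absurd h hxy.symm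
      · exact h
    · by_cases h2 : y = x₀
      · subst h2
        rw [insert_comm]
        rcases hx.2 with h | h
        · exact absurd h hxy
        · exact h
      · have g1 := hx.2.resolve_left h1
        have g2 := hy.2.resolve_left h2
        rw [insert_comm] at g1
        exact trans x hx.1 x₀ hx₀ y hy.1 g1 g2 (Ne.symm h1) (Ne.symm h2)
  -- an element of `P` and an element outside
  have outP : ∀ x ∈ P, ∀ s ∈ L \ P, N.IsBase ((insert x (insert s I) : Finset E) : Set E) := by
    intro x hx s hs
    have hs' := notP s hs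
    rw [memP] at hx
    by_cases h1 : x = x₀
    · subst h1
      exact hs'.2.2
    · by_contra hcon
      have hxs : x ≠ s := by
        intro h
        rw [mem_sdiff, memP] at hs
        exact hs.2 (h ▸ hx)
      exact trans x₀ hx₀ x hx.1 s hs'.1 (hx.2.resolve_left h1) hcon h1 hxs hs'.2.2
  refine ⟨P, filter_subset _ _, ?_, ?_, ?_⟩
  · -- two elements
    have h1 : ({x₀, y₀} : Finset E) ⊆ P := by
      intro e he
      rw [mem_insert, mem_singleton] at he
      rcases he with rfl | rfl
      · exact (memP _).2 ⟨hx₀, Or.inl rfl⟩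
      · exact (memP _).2 ⟨hy₀, Or.inr hmiss⟩
    have h2 := card_le_card h1
    rw [card_pair hxy₀] at h2
    exact h2
  · by_contra hcon
    push Not at hcon
    -- there is an element outside
    obtain ⟨B, hB, hxB⟩ := hpos x₀ hx₀
    obtain ⟨p, hp, q, hq, hpq, hpI, hqI, hBe⟩ := base_form (hform B hB).1 (hform B hB).2 (hcard B hB)
    have hex : ∃ s, s ∈ L \ P := by
      rw [hBe, mem_insert, mem_insert] at hxB
      rcases hxB with h | h | h
      · subst h
        refine ⟨q, mem_sdiff.2 ⟨hq, fun hqP => ?_⟩⟩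
        exact inP _ ((memP _).2 ⟨hx₀, Or.inl rfl⟩) q hqP hpq (by rw [← hBe]; exact hB)
      · subst h
        refine ⟨p, mem_sdiff.2 ⟨hp, fun hpP => ?_⟩⟩
        exact inP p hpP _ ((memP _).2 ⟨hx₀, Or.inl rfl⟩) hpq (by rw [← hBe]; exact hB)
      · exact absurd h (dj _ hx₀)
    obtain ⟨s, hs⟩ := hex
    have hone : ∀ t ∈ L \ P, t = s := by
      intro t ht
      by_contra hts
      have : ({s, t} : Finset E) ⊆ L \ P := by
        intro e he
        rw [mem_insert, mem_singleton] at he
        rcases he with rfl | rfl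
        · exact hs
        · exact ht
      have h2 := card_le_card this
      rw [card_pair (Ne.symm hts)] at h2
      omega
    obtain ⟨C, hC, hsC⟩ := hlt s (mem_sdiff.1 hs).1
    obtain ⟨p', hp', q', hq', hpq', hpI', hqI', hCe⟩ :=
      base_form (hform C hC).1 (hform C hC).2 (hcard C hC)
    have g1 : p' ∈ P := by
      by_contra h
      apply hsC
      rw [hCe, ← hone p' (mem_sdiff.2 ⟨hp', h⟩)]
      simp
    have g2 : q' ∈ P := by
      by_contra h
      apply hsC
      rw [hCe, ← hone q' (mem_sdiff.2 ⟨hq', h⟩)]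
      simp
    exact inP p' g1 q' g2 hpq' (by rw [← hCe]; exact hC)
  · intro x hx y hy hxy s hs t ht hst D hD h1 h2
    have xL := ((memP x).1 hx).1
    have yL := ((memP y).1 hy).1
    have sL := (mem_sdiff.1 hs).1
    have tL := (mem_sdiff.1 ht).1
    have nxs : x ≠ s := fun h => (mem_sdiff.1 hs).2 (h ▸ hx)
    have nxt : x ≠ t := fun h => (mem_sdiff.1 ht).2 (h ▸ hx)
    have nys : y ≠ s := fun h => (mem_sdiff.1 hs).2 (h ▸ hy)
    have nyt : y ≠ t := fun h => (mem_sdiff.1 ht).2 (h ▸ hy)
    have f1 := outP x hx s hs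
    have f2 := outP y hy t ht
    have hmid : (1/2 : ℝ) • vec ((insert x (insert y I) : Finset E) : Set E) +
        (1 - 1/2 : ℝ) • vec ((insert s (insert t I) : Finset E) : Set E) ∈ polytope N := by
      have e1 : (1/2 : ℝ) • vec ((insert x (insert y I) : Finset E) : Set E) +
          (1 - 1/2 : ℝ) • vec ((insert s (insert t I) : Finset E) : Set E) =
          (1/2 : ℝ) • vec ((insert x (insert s I) : Finset E) : Set E) +
          (1/2 : ℝ) • vec ((insert y (insert t I) : Finset E) : Set E) := by
        funext e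
        simp only [Pi.add_apply, Pi.smul_apply, smul_eq_mul, vec_apply, mem_insert]
        by_cases x1 : e = x
        · subst x1
          simp only [true_or, if_true, hxy, nxs, nxt, dj e xL, or_self, if_false]
          norm_num
        · by_cases x2 : e = y
          · subst x2
            simp only [true_or, or_true, if_true, hxy.symm, nys, nyt, dj e yL, or_self, if_false]
            norm_num
          · by_cases x3 : e = s
            · subst x3
              simp only [true_or, or_true, if_true, nxs.symm, nys.symm, hst, dj e sL, or_self,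
                if_false]
              norm_num
            · by_cases x4 : e = t
              · subst x4
                simp only [true_or, or_true, if_true, nxt.symm, nyt.symm, hst.symm, dj e tL,
                  or_self, if_false]
                norm_num
              · simp only [x1, x2, x3, x4, false_or]
                ring
      rw [e1]
      exact (convex_convexHull ℝ _) (vec_mem N _ f1) (vec_mem N _ f2) (by norm_num)
        (by norm_num) (by norm_num)
    have h3 := pair hS hN hD _ _ h1 h2 (1/2) (by norm_num) (by norm_num) hmid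
    exact inP x hx y hy hxy h3.1

end split

end Pool.Agent.Q163.PG
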