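import Mathlib
import Pool.Agent.Q163.PG.Line

set_option autoImplicit false
set_option linter.unusedSectionVars false
set_option linter.unusedVariables false

/-!
Two moves which preserve the splits of octahedra, for arbitrary matroids.
-/

namespace Pool.Agent.Q163.PG

open Finset

variable {E : Type} [Fintype E] [DecidableEq E] {M : Matroid E} {S : Set (Set (E → ℝ))}
  (hS : IsMatroidSubdivision M S)

include hS

/-- moving one element to an element which is parallel to it in the contraction of `I` -/
theorem par_move (I : Finset E) (a a' b c d : E) (aI : a ∉ I) (a'I : a' ∉ I) (haa : a ≠ a')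
    (hab : a ≠ b) (ha'b : a' ≠ b) (hac : a ≠ c) (had : a ≠ d) (ha'c : a' ≠ c) (ha'd : a' ≠ d)
    (bI : b ∉ I)
    (b1 : M.IsBase ((insert a (insert b I) : Finset E) : Set E))
    (b2 : M.IsBase ((insert c (insert d I) : Finset E) : Set E))
    (b3 : M.IsBase ((insert a' (insert b I) : Finset E) : Set E))
    (hpar : ¬ M.IsBase ((insert a (insert a' I) : Finset E) : Set E))
    (hs : sig S I a b c d) : sig S I a' b c d := by
  intro D hD h1 h2
  have e1 : (insert a (insert b I)).erase a = insert b I := by
    apply erase_insert
    rw [mem_insert]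
    rintro (h | h)
    · exact hab h
    · exact aI h
  obtain ⟨N, hN, g1, g2⟩ := swap hS (wt I {a, a', b, c, d}) I.card a a' haa
    (insert a (insert b I)) (insert c (insert d I)) (insert a' (insert b I))
    (insert c (insert d I)) b1 b2 b3 b2 (mem_insert_self _ _)
    (by
      rw [mem_insert, mem_insert]
      rintro (h | h | h)
      · exact haa h.symm
      · exact ha'b h
      · exact a'I h)
    (by
      rw [mem_insert, mem_insert]
      rintro (h | h | h)
      · exact ha'c h
      · exact ha'd h
      · exact a'I h)
    (by rw [e1])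
    (Or.inr ⟨by
      rw [mem_insert, mem_insert]
      rintro (h | h | h)
      · exact hac h
      · exact had h
      · exact aI h, rfl⟩)
    (fun B _ => sum_wt_le _ _ _)
    (by
      rw [sum_wt_eq]
      refine ⟨(subset_insert _ _).trans (subset_insert _ _), ?_⟩
      intro e he
      simp only [mem_insert, mem_union, mem_singleton] at he ⊢
      tauto)
    (by
      rw [sum_wt_eq]
      refine ⟨(subset_insert _ _).trans (subset_insert _ _), ?_⟩
      intro e he
      simp only [mem_insert, mem_union, mem_singleton] at he ⊢
      tauto)
    (by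
      rw [sum_wt_eq]
      refine ⟨(subset_insert _ _).trans (subset_insert _ _), ?_⟩
      intro e he
      simp only [mem_insert, mem_union, mem_singleton] at he ⊢
      tauto)
    (by
      rw [sum_wt_eq]
      refine ⟨(subset_insert _ _).trans (subset_insert _ _), ?_⟩
      intro e he
      simp only [mem_insert, mem_union, mem_singleton] at he ⊢
      tauto)
    (by
      intro B hB hw ⟨haB, ha'B⟩
      rw [sum_wt_eq] at hw
      have h3 : insert a (insert a' I) ⊆ B := insert_subset haB (insert_subset ha'B hw.1)
      have h4 := base_card M B _ hB b1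
      have k1 : (insert a (insert b I)).card = I.card + 2 := by
        rw [card_insert_of_notMem, card_insert_of_notMem bI]
        rw [mem_insert]
        rintro (h | h)
        · exact hab h
        · exact aI h
      have k2 : (insert a (insert a' I)).card = I.card + 2 := by
        rw [card_insert_of_notMem, card_insert_of_notMem a'I]
        rw [mem_insert]
        rintro (h | h)
        · exact haa h
        · exact aI h
      have h5 : insert a (insert a' I) = B := by
        apply eq_of_subset_of_card_le h3
        omega
      apply hpar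
      rw [h5]
      exact hB)
    D hD h1 h2
  exact hs N hN g1 g2

/-- changing one element of the contracted set, for four elements of a set of rank two -/
theorem line_move (J : Finset E) (i i' a b c d : E) (hi : i ∉ J) (hi' : i' ∉ J) (hii : i ≠ i')
    (hX : Disjoint ({a, b, c, d} : Finset E) (insert i (insert i' J)))
    (nab : a ≠ b) (ncd : c ≠ d)
    (b1 : M.IsBase ((insert a (insert b (insert i J)) : Finset E) : Set E))
    (b2 : M.IsBase ((insert c (insert d (insert i J)) : Finset E) : Set E))
    (b3 : M.IsBase ((insert a (insert b (insert i' J)) : Finset E) : Set E))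
    (b4 : M.IsBase ((insert c (insert d (insert i' J)) : Finset E) : Set E))
    (hXr : ∀ B : Finset E, M.IsBase (B : Set E) → (B ∩ {a, b, c, d}).card ≤ 2)
    (hs : sig S (insert i J) a b c d) : sig S (insert i' J) a b c d := by
  intro D hD h1 h2
  set X : Finset E := {a, b, c, d} with hXdef
  have aX : a ∈ X := by simp [hXdef]
  have bX : b ∈ X := by simp [hXdef]
  have cX : c ∈ X := by simp [hXdef]
  have dX : d ∈ X := by simp [hXdef]
  have dj : ∀ e ∈ X, e ≠ i ∧ e ≠ i' ∧ e ∉ J := by
    intro e he
    have := Finset.disjoint_left.1 hX he
    simp only [mem_insert, not_or] at this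
    exact this
  have iX : i ∉ X := fun h => (dj i h).1 rfl
  have i'X : i' ∉ X := fun h => (dj i' h).2.1 rfl
  have hXJ : Disjoint X J := by
    rw [Finset.disjoint_left]
    exact fun e he => (dj e he).2.2
  have hcard : ∀ B : Finset E, M.IsBase (B : Set E) → B.card = J.card + 3 := by
    intro B hB
    rw [base_card M B _ hB b1, card_insert_of_notMem, card_insert_of_notMem,
      card_insert_of_notMem hi]
    · rw [mem_insert]
      rintro (h | h)
      · exact (dj b bX).1 h
      · exact (dj b bX).2.2 h
    · rw [mem_insert, mem_insert]
      rintro (h | h | h)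
      · exact nab h
      · exact (dj a aX).1 h
      · exact (dj a aX).2.2 h
  have hle : ∀ B : Finset E, M.IsBase (B : Set E) → (B ∩ (J ∪ X)).card ≤ J.card + 2 := by
    intro B hB
    rw [inter_union_distrib_left]
    have h3 := card_union_le (B ∩ J) (B ∩ X)
    have h4 : (B ∩ J).card ≤ J.card := card_le_card inter_subset_right
    have h5 := hXr B hB
    omega
  have tight : ∀ p q j : E, p ∈ X → q ∈ X → p ≠ q → (j = i ∨ j = i') →
      ∑ e ∈ insert p (insert q (insert j J)), wt (J ∪ X) {i, i'} e = J.card + 2 := by
    intro p q j hp hq hpq hj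
    rw [sum_wt]
    have jX : j ∉ X := by
      rcases hj with rfl | rfl
      · exact iX
      · exact i'X
    have jJ : j ∉ J := by
      rcases hj with rfl | rfl
      · exact hi
      · exact hi'
    have e1 : insert p (insert q (insert j J)) ∩ (J ∪ X) = insert p (insert q J) := by
      ext e
      simp only [mem_inter, mem_insert, mem_union]
      constructor
      · rintro ⟨h | h | h | h, h'⟩
        · exact Or.inl h
        · exact Or.inr (Or.inl h)
        · rcases h' with h' | h'
          · exact absurd (h ▸ h') jJ
          · exact absurd (h ▸ h') jX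
        · exact Or.inr (Or.inr h)
      · rintro (h | h | h)
        · exact ⟨Or.inl h, Or.inr (h ▸ hp)⟩
        · exact ⟨Or.inr (Or.inl h), Or.inr (h ▸ hq)⟩
        · exact ⟨Or.inr (Or.inr (Or.inr h)), Or.inl h⟩
    have e2 : insert p (insert q (insert j J)) \ (J ∪ X ∪ {i, i'}) = ∅ := by
      rw [sdiff_eq_empty_iff_subset]
      intro e he
      simp only [mem_insert, mem_union, mem_singleton] at he ⊢
      rcases he with h | h | h | h
      · exact Or.inl (Or.inr (h ▸ hp))
      · exact Or.inl (Or.inr (h ▸ hq))
      · right
        rcases hj with h' | h'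
        · exact Or.inl (h.trans h')
        · exact Or.inr (h.trans h')
      · exact Or.inl (Or.inl h)
    rw [e1, e2, card_insert_of_notMem, card_insert_of_notMem]
    · simp
      ring
    · exact (dj q hq).2.2
    · rw [mem_insert]
      rintro (h | h)
      · exact hpq h
      · exact (dj p hp).2.2 h
  have er : ∀ p q : E, p ≠ i → q ≠ i →
      insert p (insert q (insert i' J)) =
        insert i' ((insert p (insert q (insert i J))).erase i) := by
    intro p q hp hq
    ext e
    simp only [mem_insert, mem_erase]
    constructor
    · rintro (h | h | h | h)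
      · exact Or.inr ⟨h ▸ hp, Or.inl h⟩
      · exact Or.inr ⟨h ▸ hq, Or.inr (Or.inl h)⟩
      · exact Or.inl h
      · exact Or.inr ⟨fun h' => hi (h' ▸ h), Or.inr (Or.inr (Or.inr h))⟩
    · rintro (h | ⟨h', h | h | h | h⟩)
      · exact Or.inr (Or.inr (Or.inl h))
      · exact Or.inl h
      · exact Or.inr (Or.inl h)
      · exact absurd h h'
      · exact Or.inr (Or.inr (Or.inr h))
  obtain ⟨N, hN, g1, g2⟩ := swap hS (wt (J ∪ X) {i, i'}) (J.card + 2) i i' hii
    (insert a (insert b (insert i J))) (insert c (insert d (insert i J)))
    (insert a (insert b (insert i' J))) (insert c (insert d (insert i' J))) b1 b2 b3 b4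
    (by simp)
    (by
      simp only [mem_insert, not_or]
      exact ⟨(dj a aX).2.1.symm, (dj b bX).2.1.symm, hii.symm, hi'⟩)
    (by
      simp only [mem_insert, not_or]
      exact ⟨(dj c cX).2.1.symm, (dj d dX).2.1.symm, hii.symm, hi'⟩)
    (er a b (dj a aX).1 (dj b bX).1)
    (Or.inl ⟨by simp, er c d (dj c cX).1 (dj d dX).1⟩)
    (by
      intro B hB
      rw [sum_wt]
      have h3 : ((B ∩ (J ∪ X)).card : ℝ) ≤ J.card + 2 := by exact_mod_cast hle B hB
      have h4 : (0 : ℝ) ≤ (B \ (J ∪ X ∪ {i, i'})).card := by positivity
      linarith)
    (tight a b i aX bX nab (Or.inl rfl))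
    (tight c d i cX dX ncd (Or.inl rfl))
    (tight a b i' aX bX nab (Or.inr rfl))
    (tight c d i' cX dX ncd (Or.inr rfl))
    (by
      intro B hB hw ⟨hiB, hi'B⟩
      rw [sum_wt] at hw
      have h3 := hle B hB
      have h3' : ((B ∩ (J ∪ X)).card : ℝ) ≤ J.card + 2 := by exact_mod_cast h3
      have h4 : (0 : ℝ) ≤ (B \ (J ∪ X ∪ {i, i'})).card := by positivity
      have h5 : ((J.card + 2 : ℕ) : ℝ) ≤ (B ∩ (J ∪ X)).card := by
        push_cast
        linarith
      have h6 : J.card + 2 ≤ (B ∩ (J ∪ X)).card := by exact_mod_cast h5
      have h7 := hcard B hB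
      have h8 : insert i (insert i' (B ∩ (J ∪ X))) ⊆ B :=
        insert_subset hiB (insert_subset hi'B inter_subset_left)
      have h9 := card_le_card h8
      rw [card_insert_of_notMem, card_insert_of_notMem] at h9
      · omega
      · simp only [mem_inter, mem_union, not_and, not_or]
        exact fun _ => ⟨hi', i'X⟩
      · simp only [mem_insert, mem_inter, mem_union, not_or, not_and]
        exact ⟨hii, fun _ => ⟨hi, iX⟩⟩)
    D hD h1 h2
  exact hs N hN g1 g2

end Pool.Agent.Q163.PG
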