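import Mathlib
import Pool.Agent.Q163.PG.Poly

set_option autoImplicit false
set_option linter.unusedSectionVars false
set_option linter.unusedVariables false

/-!
If no octahedron is split and every base has a point of full support, then the subdivision is
trivial.
-/

namespace Pool.Agent.Q163.PG

open Finset

variable {E : Type} [Fintype E] [DecidableEq E]

section opp

/-- the four-cycle rule inside one cell -/
theorem four_cycle (M : Matroid E) (S : Set (Set (E → ℝ))) (hS : IsMatroidSubdivision M S)
    (hoct : ∀ (I : Finset E) (a b c d : E),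
      M.IsBase ((insert a (insert b I) : Finset E) : Set E) →
      M.IsBase ((insert c (insert d I) : Finset E) : Set E) →
      M.IsBase ((insert a (insert c I) : Finset E) : Set E) →
      M.IsBase ((insert b (insert d I) : Finset E) : Set E) →
      M.IsBase ((insert a (insert d I) : Finset E) : Set E) →
      M.IsBase ((insert b (insert c I) : Finset E) : Set E) →
      a ∉ I → b ∉ I → c ∉ I → d ∉ I → a ≠ b → a ≠ c → a ≠ d → b ≠ c → b ≠ d → c ≠ d →
      ∃ D : Matroid E, polytope D ∈ S ∧ D.IsBase ((insert a (insert b I) : Finset E) : Set E) ∧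
        D.IsBase ((insert c (insert d I) : Finset E) : Set E))
    (N : Matroid E) (hN : polytope N ∈ S) (B : Finset E) (hB : N.IsBase (B : Set E))
    (f g e b : E) (hf : f ∈ B) (hg : g ∈ B) (hfg : f ≠ g) (he : e ∉ B) (hb : b ∉ B) (heb : e ≠ b)
    (h1 : N.IsBase ((insert e (B.erase f) : Finset E) : Set E))
    (h2 : N.IsBase ((insert b (B.erase g) : Finset E) : Set E))
    (h3 : M.IsBase ((insert b (B.erase f) : Finset E) : Set E))
    (h4 : M.IsBase ((insert e (B.erase g) : Finset E) : Set E)) :
    N.IsBase ((insert b (B.erase f) : Finset E) : Set E) ∧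
      N.IsBase ((insert e (B.erase g) : Finset E) : Set E) := by
  set I := (B.erase f).erase g with hI
  have hfI : f ∉ I := by
    intro h
    exact absurd (mem_of_mem_erase h) (notMem_erase f B)
  have hgI : g ∉ I := notMem_erase g _
  have heI : e ∉ I := fun h => he (mem_of_mem_erase (mem_of_mem_erase h))
  have hbI : b ∉ I := fun h => hb (mem_of_mem_erase (mem_of_mem_erase h))
  have hfe : f ≠ e := fun h => he (h ▸ hf)
  have hfb : f ≠ b := fun h => hb (h ▸ hf)
  have hge : g ≠ e := fun h => he (h ▸ hg)
  have hgb : g ≠ b := fun h => hb (h ▸ hg)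
  have eF : B.erase f = insert g I := by
    rw [hI, insert_erase (mem_erase.2 ⟨hfg.symm, hg⟩)]
  have eG : B.erase g = insert f I := by
    have : I = (B.erase g).erase f := by rw [hI, erase_right_comm]
    rw [this, insert_erase (mem_erase.2 ⟨hfg, hf⟩)]
  have eB : B = insert f (insert g I) := by rw [← eF, insert_erase hf]
  rw [eF] at h1 h3 ⊢
  rw [eG] at h2 h4 ⊢
  by_cases hbe : M.IsBase ((insert e (insert b I) : Finset E) : Set E)
  · -- an octahedron
    have hBM := cell_base hS hN hB
    have h1M := cell_base hS hN h1
    have h2M := cell_base hS hN h2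
    -- the pair (b g | e f)
    obtain ⟨D, hD, d1, d2⟩ := hoct I b g e f h3 h4 (by rw [insert_comm]; exact hbe)
      (by rw [insert_comm, ← eB]; exact hBM) h2M (by rw [insert_comm]; exact h1M)
      hbI hgI heI hfI hgb.symm heb.symm hfb.symm hge hfg.symm hfe.symm
    have hz : (1/2 : ℝ) • vec ((insert b (insert g I) : Finset E) : Set E) +
        (1 - 1/2 : ℝ) • vec ((insert e (insert f I) : Finset E) : Set E) ∈ polytope N := by
      have e1 : (1/2 : ℝ) • vec ((insert b (insert g I) : Finset E) : Set E) +
          (1 - 1/2 : ℝ) • vec ((insert e (insert f I) : Finset E) : Set E) =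
          (1/2 : ℝ) • vec ((insert e (insert g I) : Finset E) : Set E) +
          (1/2 : ℝ) • vec ((insert b (insert f I) : Finset E) : Set E) := by
        funext x
        simp only [Pi.add_apply, Pi.smul_apply, smul_eq_mul, vec_apply, mem_insert]
        by_cases x1 : x = b
        · subst x1
          simp only [true_or, if_true, hgb.symm, hfb.symm, heb.symm, hbI, or_self, if_false]
          norm_num
        · by_cases x2 : x = e
          · subst x2
            simp only [true_or, if_true, hge.symm, hfe.symm, heb, heI, or_self, if_false]
            norm_num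
          · simp only [x1, x2, false_or]
            ring
      rw [e1]
      exact (convex_convexHull ℝ _) (vec_mem N _ h1) (vec_mem N _ h2) (by norm_num)
        (by norm_num) (by norm_num)
    exact pair hS hN hD _ _ d1 d2 (1/2) (by norm_num) (by norm_num) hz
  · -- exchange in `N`
    have hnb : ¬ N.IsBase ((insert e (insert b I) : Finset E) : Set E) :=
      fun h => hbe (cell_base hS hN h)
    constructor
    · -- remove `f` from `b f I`, add `g` or `e`
      obtain ⟨y, hy, hyB⟩ := h2.exchange h1 (e := f) (by
        constructor
        · simp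
        · simp [hfe, hfg, hfI])
      have hy' : y = g ∨ y = e := by
        have hy1 := hy.1
        have hy2 := hy.2
        simp only [coe_insert, Set.mem_insert_iff, mem_coe] at hy1 hy2
        tauto
      have hset : insert y ((((insert b (insert f I) : Finset E) : Set E)) \ {f}) =
          ((insert y (insert b I) : Finset E) : Set E) := by
        ext x
        simp only [coe_insert, Set.mem_insert_iff, Set.mem_sdiff, Set.mem_singleton_iff, mem_coe]
        constructor
        · rintro (h | ⟨h | h | h, h'⟩)
          · exact Or.inl h
          · exact Or.inr (Or.inl h)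
          · exact absurd h h'
          · exact Or.inr (Or.inr h)
        · rintro (h | h | h)
          · exact Or.inl h
          · exact Or.inr ⟨Or.inl h, by rw [h]; exact hfb.symm⟩
          · exact Or.inr ⟨Or.inr (Or.inr h), fun h' => hfI (h' ▸ h)⟩
      rw [hset] at hyB
      rcases hy' with rfl | rfl
      · rw [insert_comm]
        exact hyB
      · exact absurd hyB hnb
    · -- remove `g` from `e g I`, add `f` or `b`
      obtain ⟨y, hy, hyB⟩ := h1.exchange h2 (e := g) (by
        constructor
        · simp
        · simp [hgb, hfg.symm, hgI])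
      have hy' : y = f ∨ y = b := by
        have hy1 := hy.1
        have hy2 := hy.2
        simp only [coe_insert, Set.mem_insert_iff, mem_coe] at hy1 hy2
        tauto
      have hset : insert y ((((insert e (insert g I) : Finset E) : Set E)) \ {g}) =
          ((insert y (insert e I) : Finset E) : Set E) := by
        ext x
        simp only [coe_insert, Set.mem_insert_iff, Set.mem_sdiff, Set.mem_singleton_iff, mem_coe]
        constructor
        · rintro (h | ⟨h | h | h, h'⟩)
          · exact Or.inl h
          · exact Or.inr (Or.inl h)
          · exact absurd h h'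
          · exact Or.inr (Or.inr h)
        · rintro (h | h | h)
          · exact Or.inl h
          · exact Or.inr ⟨Or.inl h, by rw [h]; exact hge.symm⟩
          · exact Or.inr ⟨Or.inr (Or.inr h), fun h' => hgI (h' ▸ h)⟩
      rw [hset] at hyB
      rcases hy' with rfl | rfl
      · rw [insert_comm]
        exact hyB
      · rw [insert_comm] at hyB
        exact absurd hyB hnb

end opp

/-- one-element exchange as finsets -/
theorem exists_exch (N : Matroid E) (B : Finset E) (hB : N.IsBase (B : Set E)) (X : Finset E)
    (hX : N.Indep (X : Set E)) : ∃ C : Finset E, N.IsBase (C : Set E) ∧ X ⊆ C ∧ C ⊆ X ∪ B := by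
  obtain ⟨C', hC, h1, h2⟩ := hX.exists_isBase_subset_union_isBase hB
  obtain ⟨C, rfl⟩ := exists_fs C'
  refine ⟨C, hC, by exact_mod_cast h1, ?_⟩
  rw [← coe_subset, coe_union]
  exact h2

/-- **Local to global.** -/
theorem trivial_of (M : Matroid E) (S : Set (Set (E → ℝ))) (hS : IsMatroidSubdivision M S)
    (hfull : ∀ B : Finset E, M.IsBase (B : Set E) → ∃ b, b ∉ B ∧ ∀ g ∈ B,
      M.IsBase ((insert b (B.erase g) : Finset E) : Set E))
    (hloop : ∀ e : E, ∃ B : Finset E, M.IsBase (B : Set E) ∧ e ∈ B)
    (hoct : ∀ (I : Finset E) (a b c d : E),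
      M.IsBase ((insert a (insert b I) : Finset E) : Set E) →
      M.IsBase ((insert c (insert d I) : Finset E) : Set E) →
      M.IsBase ((insert a (insert c I) : Finset E) : Set E) →
      M.IsBase ((insert b (insert d I) : Finset E) : Set E) →
      M.IsBase ((insert a (insert d I) : Finset E) : Set E) →
      M.IsBase ((insert b (insert c I) : Finset E) : Set E) →
      a ∉ I → b ∉ I → c ∉ I → d ∉ I → a ≠ b → a ≠ c → a ≠ d → b ≠ c → b ≠ d → c ≠ d →
      ∃ D : Matroid E, polytope D ∈ S ∧ D.IsBase ((insert a (insert b I) : Finset E) : Set E) ∧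
        D.IsBase ((insert c (insert d I) : Finset E) : Set E)) :
    polytope M ∈ S := by
  classical
  set 𝓑 := univ.filter (fun B : Finset E => M.IsBase (B : Set E)) with h𝓑
  have mem𝓑 : ∀ B : Finset E, B ∈ 𝓑 ↔ M.IsBase (B : Set E) := by
    intro B
    rw [h𝓑, mem_filter]
    simp
  have hne : 𝓑.Nonempty := by
    obtain ⟨B, hB⟩ := exists_base M
    exact ⟨B, (mem𝓑 B).2 hB⟩
  have hcpos : (0 : ℝ) < 𝓑.card := by exact_mod_cast hne.card_pos
  -- the barycentre
  set z : E → ℝ := ∑ B ∈ 𝓑, ((𝓑.card : ℝ)⁻¹) • vec (B : Set E) with hz
  have hzM : z ∈ polytope M := by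
    apply (convex_convexHull ℝ _).sum_mem
    · intro B _
      positivity
    · rw [sum_const, nsmul_eq_mul, mul_inv_cancel₀ hcpos.ne']
    · intro B hB
      exact vec_mem M B ((mem𝓑 B).1 hB)
  -- strict inequalities at the barycentre
  have hstrict : ∀ (l : (E → ℝ) →ₗ[ℝ] ℝ) (c : ℝ), (∀ B : Finset E, M.IsBase (B : Set E) →
      l (vec (B : Set E)) ≤ c) → (∃ B : Finset E, M.IsBase (B : Set E) ∧
      l (vec (B : Set E)) < c) → l z < c := by
    intro l c h1 ⟨B₀, hB₀, h2⟩
    rw [hz, map_sum]
    simp only [map_smul, smul_eq_mul]
    rw [← mul_sum]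
    have h3 : ∑ B ∈ 𝓑, l (vec (B : Set E)) < ∑ B ∈ 𝓑, c :=
      sum_lt_sum (fun B hB => h1 B ((mem𝓑 B).1 hB)) ⟨B₀, (mem𝓑 B₀).2 hB₀, h2⟩
    rw [sum_const, nsmul_eq_mul] at h3
    rw [inv_mul_lt_iff₀ hcpos]
    exact h3
  obtain ⟨N, hN, hzN, hmin⟩ := min_cell hS hzM
  -- no loops
  have hloopN : ∀ e : E, ∃ B : Finset E, N.IsBase (B : Set E) ∧ e ∈ B := by
    intro e
    apply exists_base_of_pos N z hzN
    have h1 := hstrict (-(LinearMap.proj e)) 0 (by
      intro B hB
      rw [LinearMap.neg_apply, LinearMap.proj_apply, vec_apply]
      split_ifs <;> norm_num) (by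
      obtain ⟨B, hB, he⟩ := hloop e
      refine ⟨B, hB, ?_⟩
      rw [LinearMap.neg_apply, LinearMap.proj_apply, vec_apply, if_pos he]
      norm_num)
    rw [LinearMap.neg_apply, LinearMap.proj_apply] at h1
    linarith
  -- the neighbours of a base of `N`
  have hnb : ∀ B : Finset E, N.IsBase (B : Set E) → ∀ g ∈ B, ∀ e, e ∉ B →
      M.IsBase ((insert e (B.erase g) : Finset E) : Set E) →
      N.IsBase ((insert e (B.erase g) : Finset E) : Set E) := by
    intro B hB
    have hBM := cell_base hS hN hB
    -- an exchange for every element
    have hexch : ∀ e, e ∉ B → ∃ f ∈ B, N.IsBase ((insert e (B.erase f) : Finset E) : Set E) := by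
      intro e he
      obtain ⟨B₁, hB₁, he₁⟩ := hloopN e
      obtain ⟨C, hC, h1, h2⟩ := exists_exch N B hB {e} (by
        apply hB₁.indep.subset
        rw [coe_singleton, Set.singleton_subset_iff]
        exact_mod_cast he₁)
      have heC : e ∈ C := h1 (mem_singleton_self e)
      have hcard := base_card N B C hB hC
      obtain ⟨f, hf, hfC⟩ : ∃ f ∈ B, f ∉ C := by
        by_contra hcon
        push Not at hcon
        have h3 : insert e B ⊆ C := insert_subset heC hcon
        have h4 := card_le_card h3
        rw [card_insert_of_notMem he] at h4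
        omega
      refine ⟨f, hf, ?_⟩
      have h3 : C ⊆ insert e (B.erase f) := by
        intro x hx
        rw [mem_insert, mem_erase]
        rcases mem_union.1 (h2 hx) with h | h
        · left
          exact mem_singleton.1 h
        · right
          exact ⟨fun h' => hfC (h' ▸ hx), h⟩
      have h4 : C = insert e (B.erase f) := by
        apply eq_of_subset_of_card_le h3
        rw [card_insert_of_notMem (fun h => he (mem_of_mem_erase h)), card_erase_of_mem hf]
        have := card_pos.2 ⟨f, hf⟩
        omega
      rw [← h4]
      exact hC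
    obtain ⟨b, hb, hbB⟩ := hfull B hBM
    -- the neighbours of `b` in the cell
    set A := B.filter (fun f => N.IsBase ((insert b (B.erase f) : Finset E) : Set E)) with hA
    have memA : ∀ f, f ∈ A ↔ f ∈ B ∧ N.IsBase ((insert b (B.erase f) : Finset E) : Set E) := by
      intro f
      rw [hA, mem_filter]
    have hAne : A.Nonempty := by
      obtain ⟨f, hf, hf'⟩ := hexch b hb
      exact ⟨f, (memA f).2 ⟨hf, hf'⟩⟩
    -- the neighbours of an element
    have hnbA : ∀ e, e ∉ B → (∃ g ∈ A, M.IsBase ((insert e (B.erase g) : Finset E) : Set E)) →
        ∀ f ∈ B, N.IsBase ((insert e (B.erase f) : Finset E) : Set E) → f ∈ A := by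
      intro e he ⟨g, hg, hge⟩ f hf hfe
      by_contra hfA
      have hgB := (memA g).1 hg
      by_cases heb : e = b
      · subst heb
        exact hfA ((memA f).2 ⟨hf, hfe⟩)
      · have hfg : f ≠ g := fun h => hfA (h ▸ hg)
        have h1 := (four_cycle M S hS hoct N hN B hB f g e b hf hgB.1 hfg he hb heb hfe hgB.2
          (hbB f hf) hge).1
        exact hfA ((memA f).2 ⟨hf, h1⟩)
    -- all elements of `B` are neighbours of `b`
    have hAB : A = B := by
      by_contra hcon
      have hAsub : A ⊆ B := filter_subset _ _
      obtain ⟨f₀, hf₀, hf₀A⟩ : ∃ f ∈ B, f ∉ A := by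
        by_contra hcon'
        push Not at hcon'
        exact hcon (Finset.Subset.antisymm hAsub hcon')
      -- the flat
      set F := univ.filter (fun e => e ∈ M.closure ((B \ A : Finset E) : Set E)) with hF
      have memF : ∀ e, e ∈ F ↔ e ∈ M.closure ((B \ A : Finset E) : Set E) := by
        intro e
        rw [hF, mem_filter]
        simp
      have hBsub : (B : Set E) ⊆ M.E := hBM.subset_ground
      have hBAF : B \ A ⊆ F := by
        intro x hx
        rw [memF]
        exact M.mem_closure_of_mem (by exact_mod_cast hx)
          ((by exact_mod_cast sdiff_subset : ((B \ A : Finset E) : Set E) ⊆ (B : Set E)).trans hBsub)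
      -- the rank of the flat
      have hrF : ∀ C : Finset E, M.IsBase (C : Set E) → (C ∩ F).card ≤ (B \ A).card := by
        intro C hC
        have h1 : M.Indep ((C ∩ F : Finset E) : Set E) := by
          apply hC.indep.subset
          exact_mod_cast inter_subset_left
        have h2 : ((C ∩ F : Finset E) : Set E) ⊆ M.closure ((B \ A : Finset E) : Set E) := by
          intro x hx
          rw [← memF]
          have : x ∈ C ∩ F := by exact_mod_cast hx
          exact (mem_inter.1 this).2
        have h3 : ((C ∩ F : Finset E) : Set E).encard ≤ ((B \ A : Finset E) : Set E).encard := by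
          have h4 := h1.encard_le_eRk_of_subset h2
          rw [Matroid.eRk_closure_eq] at h4
          exact h4.trans (M.eRk_le_encard _)
        rw [Set.encard_coe_eq_coe_finsetCard, Set.encard_coe_eq_coe_finsetCard] at h3
        exact_mod_cast h3
      -- elements outside of the flat
      have hout : ∀ e, e ∉ F → e ∉ B → ∃ g ∈ A, M.IsBase ((insert e (B.erase g) : Finset E) : Set E) := by
        intro e he heB
        obtain ⟨B₁, hB₁, he₁⟩ := hloop e
        have heE : e ∈ M.E := hB₁.subset_ground (by exact_mod_cast he₁)
        have hi : M.Indep ((B \ A : Finset E) : Set E) := hBM.indep.subset (by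
          exact_mod_cast sdiff_subset)
        have hi2 : M.Indep ((insert e (B \ A) : Finset E) : Set E) := by
          rw [coe_insert, hi.insert_indep_iff]
          left
          exact ⟨heE, fun h => he ((memF e).2 h)⟩
        obtain ⟨C, hC, h1, h2⟩ := exists_exch M B hBM _ hi2
        have heC : e ∈ C := h1 (mem_insert_self _ _)
        have hcard := base_card M B C hBM hC
        obtain ⟨g, hg, hgC⟩ : ∃ g ∈ B, g ∉ C := by
          by_contra hcon'
          push Not at hcon'
          have h3 : insert e B ⊆ C := insert_subset heC hcon'
          have h4 := card_le_card h3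
          rw [card_insert_of_notMem heB] at h4
          omega
        refine ⟨g, ?_, ?_⟩
        · by_contra hgA
          exact hgC (h1 (mem_insert_of_mem (mem_sdiff.2 ⟨hg, hgA⟩)))
        · have h3 : C ⊆ insert e (B.erase g) := by
            intro x hx
            rw [mem_insert, mem_erase]
            rcases mem_union.1 (h2 hx) with h | h
            · rcases mem_insert.1 h with h | h
              · exact Or.inl h
              · exact Or.inr ⟨fun h' => hgC (h' ▸ hx), (mem_sdiff.1 h).1⟩
            · exact Or.inr ⟨fun h' => hgC (h' ▸ hx), h⟩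
          have h4 : C = insert e (B.erase g) := by
            apply eq_of_subset_of_card_le h3
            rw [card_insert_of_notMem (fun h => heB (mem_of_mem_erase h)), card_erase_of_mem hg]
            have := card_pos.2 ⟨g, hg⟩
            omega
          rw [← h4]
          exact hC
      -- bases of `N` have at most `|A|` elements outside of the flat
      have hNout : ∀ C : Finset E, N.IsBase (C : Set E) → (C \ F).card ≤ A.card := by
        intro C hC
        by_contra hlt
        push Not at hlt
        have i1 : N.Indep (A : Set E) := hB.indep.subset (by exact_mod_cast hAsub)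
        have i2 : N.Indep ((C \ F : Finset E) : Set E) := hC.indep.subset (by
          exact_mod_cast sdiff_subset)
        obtain ⟨x, hx, hxi⟩ := i1.augment i2 (by
          rw [Set.encard_coe_eq_coe_finsetCard, Set.encard_coe_eq_coe_finsetCard]
          exact_mod_cast hlt)
        have hxC : x ∈ C \ F := by exact_mod_cast hx.1
        have hxA : x ∉ A := by
          intro h
          exact hx.2 (by exact_mod_cast h)
        have hxF : x ∉ F := (mem_sdiff.1 hxC).2
        have hxB : x ∉ B := by
          intro h
          exact hxF (hBAF (mem_sdiff.2 ⟨h, hxA⟩))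
        obtain ⟨C', hC', h1, h2⟩ := exists_exch N B hB (insert x A) (by
          rw [coe_insert]
          exact hxi)
        have hxC' : x ∈ C' := h1 (mem_insert_self _ _)
        have hcard := base_card N B C' hB hC'
        obtain ⟨f, hf, hfC⟩ : ∃ f ∈ B, f ∉ C' := by
          by_contra hcon'
          push Not at hcon'
          have h3 : insert x B ⊆ C' := insert_subset hxC' hcon'
          have h4 := card_le_card h3
          rw [card_insert_of_notMem hxB] at h4
          omega
        have h3 : C' ⊆ insert x (B.erase f) := by
          intro y hy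
          rw [mem_insert, mem_erase]
          rcases mem_union.1 (h2 hy) with h | h
          · rcases mem_insert.1 h with h | h
            · exact Or.inl h
            · exact Or.inr ⟨fun h' => hfC (h' ▸ hy), hAsub h⟩
          · exact Or.inr ⟨fun h' => hfC (h' ▸ hy), h⟩
        have h4 : C' = insert x (B.erase f) := by
          apply eq_of_subset_of_card_le h3
          rw [card_insert_of_notMem (fun h => hxB (mem_of_mem_erase h)), card_erase_of_mem hf]
          have := card_pos.2 ⟨f, hf⟩
          omega
        rw [h4] at hC'
        have h5 := hnbA x hxB (hout x hxF hxB) f hf hC'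
        exact hfC (h1 (mem_insert_of_mem h5))
      -- the weight of the flat
      have h1 := hstrict (wl (fun e => if e ∈ F then 1 else 0)) ((B \ A).card : ℝ) (by
        intro C hC
        rw [wl_vec, Finset.sum_ite_mem, sum_const, nsmul_eq_mul, mul_one]
        exact_mod_cast hrF C hC) (by
        refine ⟨insert b (B.erase f₀), hbB f₀ hf₀, ?_⟩
        rw [wl_vec, Finset.sum_ite_mem, sum_const, nsmul_eq_mul, mul_one]
        have hbF : b ∉ F := by
          intro hbF
          rw [memF] at hbF
          obtain ⟨g, hg⟩ := hAne
          have hgB := ((memA g).1 hg).1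
          have hi := (hbB g hgB).indep
          rw [coe_insert] at hi
          have hi' : M.Indep ((B.erase g : Finset E) : Set E) := hi.subset (Set.subset_insert _ _)
          rw [hi'.insert_indep_iff] at hi
          rcases hi with h | h
          · apply h.2
            apply M.closure_subset_closure _ hbF
            intro x hx
            have hx' : x ∈ B \ A := by exact_mod_cast hx
            have : x ∈ B.erase g := mem_erase.2 ⟨fun h' => (mem_sdiff.1 hx').2 (h' ▸ hg),
              (mem_sdiff.1 hx').1⟩
            exact_mod_cast this
          · exact hb (mem_of_mem_erase (by exact_mod_cast h))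
        have h2 : (insert b (B.erase f₀)) ∩ F ⊆ (B.erase f₀) ∩ F := by
          intro x hx
          rw [mem_inter, mem_insert] at hx
          rcases hx.1 with h | h
          · exact absurd (h ▸ hx.2) hbF
          · exact mem_inter.2 ⟨h, hx.2⟩
        have h3 := card_le_card h2
        have h4 : (B.erase f₀) ∩ F = (B ∩ F).erase f₀ := by
          ext x
          simp only [mem_inter, mem_erase]
          tauto
        have hf₀F : f₀ ∈ F := hBAF (mem_sdiff.2 ⟨hf₀, hf₀A⟩)
        have h5 : ((B ∩ F).erase f₀).card < (B ∩ F).card :=
          card_erase_lt_of_mem (mem_inter.2 ⟨hf₀, hf₀F⟩)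
        have h6 := hrF B hBM
        rw [h4] at h3
        have h7 : ((insert b (B.erase f₀)) ∩ F).card < (B \ A).card := by omega
        exact_mod_cast h7)
      -- on the cell
      have h2 := hull_le N (-(wl (fun e => if e ∈ F then 1 else 0))) (-((B \ A).card : ℝ)) (by
        intro C hC
        rw [LinearMap.neg_apply, wl_vec, Finset.sum_ite_mem, sum_const, nsmul_eq_mul, mul_one]
        have h3 := hNout C hC
        have h4 := card_inter_add_card_sdiff C F
        have h5 := base_card N B C hB hC
        have h6 := card_sdiff_add_card_eq_card hAsub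
        have h7 : (B \ A).card ≤ (C ∩ F).card := by omega
        have h8 : ((B \ A).card : ℝ) ≤ (C ∩ F).card := by exact_mod_cast h7
        linarith) z hzN
      rw [LinearMap.neg_apply] at h2
      linarith
    -- conclusion for the neighbours
    intro g hg e he hge
    by_cases heb : e = b
    · subst heb
      have : g ∈ A := by rw [hAB]; exact hg
      exact ((memA g).1 this).2
    · obtain ⟨f, hf, hfe⟩ := hexch e he
      by_cases hfg : f = g
      · rw [← hfg]
        exact hfe
      · have hgA : g ∈ A := by rw [hAB]; exact hg
        exact (four_cycle M S hS hoct N hN B hB f g e b hf hg hfg he hb heb hfe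
          ((memA g).1 hgA).2 (hbB f hf) hge).2
  -- connectivity
  have hall : ∀ n : ℕ, ∀ B C : Finset E, N.IsBase (B : Set E) → M.IsBase (C : Set E) →
      (C \ B).card = n → N.IsBase (C : Set E) := by
    intro n
    induction n with
    | zero =>
      intro B C hB hC h0
      rw [card_eq_zero, sdiff_eq_empty_iff_subset] at h0
      have h1 := base_card M B C (cell_base hS hN hB) hC
      rw [eq_of_subset_of_card_le h0 (by omega)]
      exact hB
    | succ n ih =>
      intro B C hB hC hn
      have hBM := cell_base hS hN hB
      have h1 := base_card M B C hBM hC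
      have h2 : (B \ C).Nonempty := by
        rw [← card_pos]
        have h3 := card_sdiff_add_card_inter B C
        have h4 := card_sdiff_add_card_inter C B
        rw [inter_comm C B] at h4
        omega
      obtain ⟨g, hg⟩ := h2
      rw [mem_sdiff] at hg
      obtain ⟨e, he, heB⟩ := hBM.exchange hC (e := g) ⟨by exact_mod_cast hg.1, by exact_mod_cast hg.2⟩
      have heC : e ∈ C := by exact_mod_cast he.1
      have heB' : e ∉ B := by
        intro h
        exact he.2 (by exact_mod_cast h)
      have hset : insert e ((B : Set E) \ {g}) = ((insert e (B.erase g) : Finset E) : Set E) := by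
        rw [coe_insert, coe_erase]
      rw [hset] at heB
      have h3 := hnb B hB g hg.1 e heB' heB
      apply ih (insert e (B.erase g)) C h3 hC
      have h4 : C \ (insert e (B.erase g)) = (C \ B).erase e := by
        ext x
        simp only [mem_sdiff, mem_insert, mem_erase, not_or, not_and]
        constructor
        · rintro ⟨hx, hxe, hx'⟩
          refine ⟨hxe, hx, ?_⟩
          intro hxB
          exact hx' (fun h => hg.2 (h ▸ hx)) hxB
        · rintro ⟨hxe, hx, hxB⟩
          exact ⟨hx, hxe, fun _ => hxB⟩
      rw [h4, card_erase_of_mem (mem_sdiff.2 ⟨heC, heB'⟩)]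
      omega
  obtain ⟨B₀, hB₀⟩ := exists_base N
  have heq : ∀ C : Set E, N.IsBase C ↔ M.IsBase C := by
    intro C
    obtain ⟨C', rfl⟩ := exists_fs C
    exact ⟨fun h => cell_base hS hN h, fun h => hall _ B₀ C' hB₀ h rfl⟩
  have hpoly : polytope N = polytope M := by
    unfold polytope
    congr 1
    ext x
    simp only [heq]
  rw [← hpoly]
  exact hN

end Pool.Agent.Q163.PG
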