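import Mathlib
import Pool.Agent.Q163.PG.Line
import Pool.Agent.Q163.PG.Global

set_option autoImplicit false
set_option linter.unusedSectionVars false
set_option linter.unusedVariables false
set_option linter.dupNamespace false

/-!
The matroid of a finite projective space and its bases.
-/

open scoped LinearAlgebra.Projectivization

namespace Pool.Agent.Q163.PG

open Finset

theorem lio_card {K V : Type} [Field K] [AddCommGroup V] [Module K V] [Finite V]
    (I : Set (ℙ K V)) (h : LinearIndepOn K Projectivization.rep I) :
    Module.finrank K (Submodule.span K (Projectivization.rep '' I)) = I.ncard := by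
  classical
  have _ : Fintype I := Fintype.ofFinite I
  have h1 := finrank_span_eq_card (R := K) (b := fun x : I => Projectivization.rep (x : ℙ K V)) h
  have h2 : Set.range (fun x : I => Projectivization.rep (x : ℙ K V)) =
      Projectivization.rep '' I := by
    ext v
    simp
  rw [h2] at h1
  rw [h1, Set.ncard_eq_toFinset_card', Set.toFinset_card]

/-- The matroid of the projective space of a vector space `V` over the field `K`: the elements are
the points, and a set of points is independent if representative vectors are linearly independent.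
If `K` has `q` elements and `V` has dimension `r`, this is the matroid `PG(r - 1, q)`. -/
noncomputable def PG (K V : Type) [Field K] [AddCommGroup V] [Module K V] [Finite V] :
    Matroid (ℙ K V) :=
  (IndepMatroid.ofFinite (E := Set.univ) Set.finite_univ
    (fun I => LinearIndepOn K Projectivization.rep I)
    (linearIndepOn_empty K _)
    (fun _ _ hJ hIJ => hJ.mono hIJ)
    (by
      intro I J hI hJ hlt
      by_contra hcon
      push Not at hcon
      have h1 : Submodule.span K (Projectivization.rep '' J) ≤
          Submodule.span K (Projectivization.rep '' I) := by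
        rw [Submodule.span_le]
        rintro _ ⟨e, he, rfl⟩
        by_cases heI : e ∈ I
        · exact Submodule.subset_span ⟨e, heI, rfl⟩
        · by_contra hsp
          exact hcon e he heI (hI.insert hsp)
      have h2 := Submodule.finrank_mono h1
      rw [lio_card I hI, lio_card J hJ] at h2
      omega)
    (fun _ _ => Set.subset_univ _)).matroid

section space

variable {K V : Type} [Field K] [AddCommGroup V] [Module K V] [Finite V]
  [Fintype (ℙ K V)] [DecidableEq (ℙ K V)]

theorem pg_indep (I : Set (ℙ K V)) :
    (PG K V).Indep I ↔ LinearIndepOn K Projectivization.rep I := by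
  unfold PG
  rw [IndepMatroid.matroid_Indep]
  rfl

/-- the span of a set of points -/
noncomputable def sp (B : Finset (ℙ K V)) : Submodule K V :=
  Submodule.span K (Projectivization.rep '' (B : Set (ℙ K V)))

/-- the span of a point -/
noncomputable def pt (p : ℙ K V) : Submodule K V := Submodule.span K {p.rep}

theorem sp_insert (p : ℙ K V) (B : Finset (ℙ K V)) : sp (insert p B) = pt p ⊔ sp B := by
  unfold sp pt
  rw [coe_insert, Set.image_insert_eq, Submodule.span_insert]

theorem pt_le (p : ℙ K V) (B : Finset (ℙ K V)) (h : p ∈ B) : pt p ≤ sp B := by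
  unfold pt sp
  apply Submodule.span_mono
  rw [Set.singleton_subset_iff]
  exact ⟨p, by exact_mod_cast h, rfl⟩

theorem finrank_sp (B : Finset (ℙ K V)) : Module.finrank K (sp B) ≤ B.card := by
  classical
  unfold sp
  have h1 := finrank_span_finset_le_card (R := K) (B.image Projectivization.rep)
  rw [coe_image] at h1
  exact h1.trans card_image_le

theorem card_of_top (B : Finset (ℙ K V)) (h : sp B = ⊤) : Module.finrank K V ≤ B.card := by
  have h1 := finrank_sp B
  rw [h, finrank_top] at h1
  exact h1

theorem isBase_iff (B : Finset (ℙ K V)) :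
    (PG K V).IsBase (B : Set (ℙ K V)) ↔ sp B = ⊤ ∧ B.card = Module.finrank K V := by
  have key : (PG K V).IsBase (B : Set (ℙ K V)) → sp B = ⊤ ∧ B.card = Module.finrank K V := by
    intro hB
    have hi := (pg_indep _).1 hB.indep
    have htop : sp B = ⊤ := by
      by_contra hne
      obtain ⟨v, hv⟩ : ∃ v, v ∉ sp B := by
        by_contra hcon
        push Not at hcon
        exact hne (eq_top_iff.2 (fun v _ => hcon v))
      have hv0 : v ≠ 0 := fun h => hv (h ▸ (sp B).zero_mem)
      set p := Projectivization.mk K v hv0 with hp
      have hprep : p.rep ∉ sp B := by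
        intro h
        obtain ⟨a, ha⟩ := Projectivization.exists_smul_eq_mk_rep K v hv0
        rw [← hp] at ha
        rw [← ha] at h
        apply hv
        have h2 := (sp B).smul_mem ((a⁻¹ : Kˣ) : K) h
        have h3 : ((a⁻¹ : Kˣ) : K) • (a • v) = v := by
          rw [Units.smul_def, smul_smul, Units.inv_mul, one_smul]
        rwa [h3] at h2
      have h1 : (PG K V).Indep (insert p (B : Set (ℙ K V))) := by
        rw [pg_indep]
        exact hi.insert hprep
      have h2 := hB.eq_of_subset_indep h1 (Set.subset_insert _ _)
      apply hprep
      have h3 : p ∈ (B : Set (ℙ K V)) := by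
        rw [h2]
        exact Set.mem_insert _ _
      exact Submodule.subset_span ⟨p, h3, rfl⟩
    refine ⟨htop, ?_⟩
    have h1 := lio_card _ hi
    have h2 : Submodule.span K (Projectivization.rep '' (B : Set (ℙ K V))) = ⊤ := htop
    rw [h2, finrank_top, Set.ncard_coe_finset] at h1
    exact h1.symm
  refine ⟨key, ?_⟩
  rintro ⟨htop, hcard⟩
  have hi : (PG K V).Indep (B : Set (ℙ K V)) := by
    rw [pg_indep]
    have h1 : Set.range (fun x : B => Projectivization.rep (x : ℙ K V)) =
        Projectivization.rep '' (B : Set (ℙ K V)) := by
      ext v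
      simp
    have h2 := linearIndependent_of_top_le_span_of_card_eq_finrank (R := K)
      (b := fun x : B => Projectivization.rep (x : ℙ K V)) (by
        rw [h1]
        exact htop.ge) (by rw [Fintype.card_coe]; exact hcard)
    exact h2
  obtain ⟨B', hB', hsub⟩ := hi.exists_isBase_superset
  obtain ⟨C, rfl⟩ := exists_fs B'
  obtain ⟨-, h2⟩ := (by
    have : (PG K V).IsBase (C : Set (ℙ K V)) := hB'
    have h3 := (lio_card _ ((pg_indep _).1 this.indep))
    exact (⟨trivial, h3⟩ : True ∧ _))
  have h4 : C.card ≤ Module.finrank K V := by
    rw [Set.ncard_coe_finset] at h2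
    rw [← h2]
    exact Submodule.finrank_le _
  have h5 : B = C := eq_of_subset_of_card_le (by exact_mod_cast hsub) (by omega)
  rw [h5]
  exact hB'

theorem base_of_top (B : Finset (ℙ K V)) (h : sp B = ⊤) (hc : B.card ≤ Module.finrank K V) :
    (PG K V).IsBase (B : Set (ℙ K V)) := by
  rw [isBase_iff]
  exact ⟨h, le_antisymm hc (card_of_top B h)⟩

theorem rep_mk_span (v : V) (hv : v ≠ 0) :
    pt (Projectivization.mk K v hv) = Submodule.span K {v} := by
  unfold pt
  rw [← Projectivization.submodule_eq, Projectivization.submodule_mk]

theorem pt_inj {p q : ℙ K V} (h : pt p = pt q) : p = q := by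
  apply Projectivization.submodule_injective
  rw [Projectivization.submodule_eq, Projectivization.submodule_eq]
  exact h

/-- every base has a point of full support -/
theorem full_support (hr : 2 ≤ Module.finrank K V) (B : Finset (ℙ K V))
    (hB : (PG K V).IsBase (B : Set (ℙ K V))) : ∃ b, b ∉ B ∧ ∀ g ∈ B,
      (PG K V).IsBase ((insert b (B.erase g) : Finset (ℙ K V)) : Set (ℙ K V)) := by
  obtain ⟨htop, hcard⟩ := (isBase_iff B).1 hB
  have hi := (pg_indep _).1 hB.indep
  set s : V := ∑ p ∈ B, p.rep with hs
  have hBne : B.Nonempty := by
    rw [← card_pos]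
    omega
  -- the sum is not in the span of a proper subset
  have key : ∀ g ∈ B, s ∉ sp (B.erase g) := by
    intro g hg hmem
    have h1 : s = g.rep + ∑ p ∈ B.erase g, p.rep := by
      rw [hs, Finset.add_sum_erase B (fun p => p.rep) hg]
    have h2 : ∑ p ∈ B.erase g, p.rep ∈ sp (B.erase g) := by
      apply Submodule.sum_mem
      intro p hp
      exact Submodule.subset_span ⟨p, by exact_mod_cast hp, rfl⟩
    have h3 : g.rep ∈ sp (B.erase g) := by
      have := (sp (B.erase g)).sub_mem hmem h2
      rwa [h1, add_sub_cancel_right] at this
    have h4 : sp B = sp (B.erase g) := by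
      rw [← insert_erase hg, sp_insert]
      rw [erase_insert (notMem_erase g B)]
      apply sup_eq_right.2
      unfold pt
      rw [Submodule.span_singleton_le_iff_mem]
      exact h3
    have h5 := card_of_top (B.erase g) (by rw [← h4]; exact htop)
    rw [card_erase_of_mem hg] at h5
    have := card_pos.2 hBne
    omega
  have hs0 : s ≠ 0 := by
    intro h0
    obtain ⟨g, hg⟩ := hBne
    apply key g hg
    rw [h0]
    exact Submodule.zero_mem _
  refine ⟨Projectivization.mk K s hs0, ?_, ?_⟩
  · intro hmem
    -- another element
    obtain ⟨g, hg, hgb⟩ : ∃ g ∈ B, g ≠ Projectivization.mk K s hs0 := by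
      by_contra hcon
      push Not at hcon
      have : B ⊆ {Projectivization.mk K s hs0} := fun x hx => mem_singleton.2 (hcon x hx)
      have := card_le_card this
      rw [card_singleton] at this
      omega
    apply key g hg
    have h1 : Projectivization.mk K s hs0 ∈ B.erase g := mem_erase.2 ⟨hgb.symm, hmem⟩
    have h2 := pt_le _ _ h1
    rw [rep_mk_span, Submodule.span_singleton_le_iff_mem] at h2
    exact h2
  · intro g hg
    apply base_of_top
    · rw [sp_insert, rep_mk_span]
      have h1 : sp (B.erase g) ≤ Submodule.span K {s} ⊔ sp (B.erase g) := le_sup_right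
      have h2 : g.rep ∈ Submodule.span K {s} ⊔ sp (B.erase g) := by
        have h3 : s ∈ Submodule.span K {s} ⊔ sp (B.erase g) :=
          (le_sup_left : Submodule.span K {s} ≤ _) (Submodule.mem_span_singleton_self s)
        have h4 : ∑ p ∈ B.erase g, p.rep ∈ sp (B.erase g) := by
          apply Submodule.sum_mem
          intro p hp
          exact Submodule.subset_span ⟨p, by exact_mod_cast hp, rfl⟩
        have h5 : s = g.rep + ∑ p ∈ B.erase g, p.rep := by
          rw [hs, Finset.add_sum_erase B (fun p => p.rep) hg]
        have h6 := Submodule.sub_mem _ h3 (h1 h4)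
        rwa [h5, add_sub_cancel_right, ← h5] at h6
      rw [eq_top_iff, ← htop]
      conv_lhs => rw [← insert_erase hg, sp_insert]
      rw [sup_le_iff]
      constructor
      · unfold pt
        rw [Submodule.span_singleton_le_iff_mem]
        exact h2
      · exact h1
    · have h1 := card_insert_le (Projectivization.mk K s hs0) (B.erase g)
      rw [card_erase_of_mem hg] at h1
      have := card_pos.2 hBne
      omega

/-- no loops -/
theorem no_loop (p : ℙ K V) : ∃ B : Finset (ℙ K V), (PG K V).IsBase (B : Set (ℙ K V)) ∧ p ∈ B := by
  have h1 : (PG K V).Indep {p} := by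
    rw [pg_indep]
    exact LinearIndepOn.singleton (Projectivization.rep_nonzero p)
  obtain ⟨B', hB', hsub⟩ := h1.exists_isBase_superset
  obtain ⟨C, rfl⟩ := exists_fs B'
  refine ⟨C, hB', ?_⟩
  have : p ∈ (C : Set (ℙ K V)) := hsub rfl
  exact_mod_cast this

end space

end Pool.Agent.Q163.PG
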