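import Mathlib
import Pool.Agent.Q163.PG.Space

set_option autoImplicit false
set_option linter.unusedSectionVars false
set_option linter.unusedVariables false

/-!
The splits on the lines of a projective space are invariant under projectivities.
-/

open scoped LinearAlgebra.Projectivization

namespace Pool.Agent.Q163.PG

open Finset

variable {K V : Type} [Field K] [AddCommGroup V] [Module K V] [Finite V]
  [Fintype (ℙ K V)] [DecidableEq (ℙ K V)]
  {S : Set (Set (ℙ K V → ℝ))} (hS : IsMatroidSubdivision (PG K V) S)

/-- the two points and `I` span -/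
def Sp (I : Finset (ℙ K V)) (x y : ℙ K V) : Prop := sp (insert x (insert y I)) = ⊤

theorem Sp_comm {I : Finset (ℙ K V)} {x y : ℙ K V} (h : Sp I x y) : Sp I y x := by
  unfold Sp at h ⊢
  rw [insert_comm]
  exact h

theorem sp2 (I : Finset (ℙ K V)) (x y : ℙ K V) :
    sp (insert x (insert y I)) = pt x ⊔ (pt y ⊔ sp I) := by
  rw [sp_insert, sp_insert]

theorem Sp_move {I : Finset (ℙ K V)} {x x' y : ℙ K V} (h : Sp I x y)
    (he : pt x' ⊔ sp I = pt x ⊔ sp I) : Sp I x' y := by
  unfold Sp at h ⊢
  rw [sp2, sup_left_comm] at h ⊢
  rw [he]
  exact h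

section facts

variable {I : Finset (ℙ K V)} (hI : I.card + 2 = Module.finrank K V)

include hI

/-- small sets do not span -/
theorem small {X : Finset (ℙ K V)} (hX : X.card ≤ I.card + 1) : sp X ≠ ⊤ := by
  intro h
  have := card_of_top X h
  omega

theorem Sp_ne {x y : ℙ K V} (h : Sp I x y) : x ≠ y := by
  rintro rfl
  unfold Sp at h
  rw [insert_eq_of_mem (mem_insert_self _ _)] at h
  exact small hI (card_insert_le _ _) h

theorem Sp_notMem {x y : ℙ K V} (h : Sp I x y) : x ∉ I := by
  intro hx
  unfold Sp at h
  rw [insert_eq_of_mem (mem_insert_of_mem hx)] at h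
  exact small hI (card_insert_le _ _) h

theorem Sp_notMem' {x y : ℙ K V} (h : Sp I x y) : y ∉ I := Sp_notMem hI (Sp_comm h)

/-- a point with the same span with `I` as another one is not a partner of it -/
theorem not_Sp_self {x x' : ℙ K V} (he : pt x' ⊔ sp I = pt x ⊔ sp I) : ¬ Sp I x x' := by
  intro h
  unfold Sp at h
  rw [sp2, he, ← sup_assoc, sup_idem, ← sp_insert] at h
  exact small hI (card_insert_le _ _) h

theorem Sp_card {x y : ℙ K V} (h : Sp I x y) : (insert x (insert y I)).card = I.card + 2 := by
  rw [card_insert_of_notMem, card_insert_of_notMem (Sp_notMem' hI h)]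
  rw [mem_insert]
  rintro (h' | h')
  · exact Sp_ne hI h h'
  · exact Sp_notMem hI h h'

theorem Sp_base {x y : ℙ K V} (h : Sp I x y) :
    (PG K V).IsBase ((insert x (insert y I) : Finset (ℙ K V)) : Set (ℙ K V)) := by
  apply base_of_top _ h
  rw [Sp_card hI h]
  omega

include hS

/-- moving one point to a parallel one -/
theorem cmove (a a' b c d : ℙ K V) (hab : Sp I a b) (hcd : Sp I c d) (hac : Sp I a c)
    (had : Sp I a d) (he : pt a' ⊔ sp I = pt a ⊔ sp I) (hs : sig S I a b c d) :
    sig S I a' b c d := by
  intro D hD h1 h2
  by_cases haa : a' = a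
  · subst haa
    exact hs D hD h1 h2
  · have hnot := not_Sp_self hI he
    have hab' : Sp I a' b := Sp_move hab he
    have hac' : Sp I a' c := Sp_move hac he
    have had' : Sp I a' d := Sp_move had he
    have aI := Sp_notMem hI hab
    have a'I := Sp_notMem hI hab'
    have e1 : (insert a (insert b I)).erase a = insert b I := by
      apply erase_insert
      rw [mem_insert]
      rintro (h | h)
      · exact Sp_ne hI hab h
      · exact aI h
    obtain ⟨N, hN, g1, g2⟩ := swap hS (wt I {a, a', b, c, d}) I.card a a' (Ne.symm haa)
      (insert a (insert b I)) (insert c (insert d I)) (insert a' (insert b I))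
      (insert c (insert d I)) (Sp_base hI hab) (Sp_base hI hcd) (Sp_base hI hab')
      (Sp_base hI hcd) (mem_insert_self _ _)
      (by
        rw [mem_insert, mem_insert]
        rintro (h | h | h)
        · exact haa h
        · exact Sp_ne hI hab' h
        · exact a'I h)
      (by
        rw [mem_insert, mem_insert]
        rintro (h | h | h)
        · exact Sp_ne hI hac' h
        · exact Sp_ne hI had' h
        · exact a'I h)
      (by rw [e1])
      (Or.inr ⟨by
        rw [mem_insert, mem_insert]
        rintro (h | h | h)
        · exact Sp_ne hI hac h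
        · exact Sp_ne hI had h
        · exact aI h, rfl⟩)
      (fun B _ => sum_wt_le _ _ _)
      (by
        rw [sum_wt_eq]
        refine ⟨(subset_insert _ _).trans (subset_insert _ _), ?_⟩
        intro e he
        simp only [mem_insert, mem_union, mem_singleton] at he ⊢
        tauto)
      (by
        rw [sum_wt_eq]
        refine ⟨(subset_insert _ _).trans (subset_insert _ _), ?_⟩
        intro e he
        simp only [mem_insert, mem_union, mem_singleton] at he ⊢
        tauto)
      (by
        rw [sum_wt_eq]
        refine ⟨(subset_insert _ _).trans (subset_insert _ _), ?_⟩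
        intro e he
        simp only [mem_insert, mem_union, mem_singleton] at he ⊢
        tauto)
      (by
        rw [sum_wt_eq]
        refine ⟨(subset_insert _ _).trans (subset_insert _ _), ?_⟩
        intro e he
        simp only [mem_insert, mem_union, mem_singleton] at he ⊢
        tauto)
      (by
        intro B hB hw ⟨haB, ha'B⟩
        rw [sum_wt_eq] at hw
        have h3 : insert a (insert a' I) ⊆ B := insert_subset haB (insert_subset ha'B hw.1)
        have h4 := ((isBase_iff B).1 hB).2
        have h5 : insert a (insert a' I) = B := by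
          apply eq_of_subset_of_card_le h3
          rw [card_insert_of_notMem, card_insert_of_notMem a'I]
          · omega
          · rw [mem_insert]
            rintro (h | h)
            · exact haa h.symm
            · exact aI h
        apply hnot
        unfold Sp
        rw [h5]
        exact ((isBase_iff B).1 hB).1)
      D hD h1 h2
    exact hs N hN g1 g2

/-- moving four points to parallel ones -/
theorem cmove4 (x y z t x' y' z' t' : ℙ K V) (hxy : Sp I x y) (hxz : Sp I x z) (hxt : Sp I x t)
    (hyz : Sp I y z) (hyt : Sp I y t) (hzt : Sp I z t) (ex : pt x' ⊔ sp I = pt x ⊔ sp I)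
    (ey : pt y' ⊔ sp I = pt y ⊔ sp I) (ez : pt z' ⊔ sp I = pt z ⊔ sp I)
    (et : pt t' ⊔ sp I = pt t ⊔ sp I) (hs : sig S I x y z t) : sig S I x' y' z' t' := by
  have h1 := cmove hS hI x x' y z t hxy hzt hxz hxt ex hs
  have hyx' : Sp I y x' := Sp_comm (Sp_move hxy ex)
  have h2 := cmove hS hI y y' x' z t hyx' hzt hyz hyt ey (sig_comm h1)
  have hx'y' : Sp I x' y' := Sp_comm (Sp_move hyx' ey)
  have hzx' : Sp I z x' := Sp_comm (Sp_move hxz ex)
  have hzy' : Sp I z y' := Sp_comm (Sp_move hyz ey)
  have h3 := cmove hS hI z z' t x' y' hzt hx'y' hzx' hzy' ez (sig_symm (sig_comm h2))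
  have htx' : Sp I t x' := Sp_comm (Sp_move hxt ex)
  have hty' : Sp I t y' := Sp_comm (Sp_move hyt ey)
  have htz' : Sp I t z' := Sp_comm (Sp_move hzt ez)
  have h4 := cmove hS hI t t' z' x' y' htz' hx'y' htx' hty' et (sig_comm h3)
  exact sig_symm (sig_comm h4)

end facts

include hS

/-- changing one element of `I` for four collinear points -/
theorem bmove (J : Finset (ℙ K V)) (i i' : ℙ K V) (hJ : J.card + 3 = Module.finrank K V)
    (hi : i ∉ J) (hi' : i' ∉ J) (a b c d : ℙ K V) (U : Submodule K V)
    (hU : Module.finrank K U ≤ 2) (ha : a.rep ∈ U) (hb : b.rep ∈ U) (hc : c.rep ∈ U)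
    (hd : d.rep ∈ U) (s1 : Sp (insert i J) a b) (s2 : Sp (insert i J) c d)
    (s3 : Sp (insert i' J) a b) (s4 : Sp (insert i' J) c d) (hs : sig S (insert i J) a b c d) :
    sig S (insert i' J) a b c d := by
  intro D hD h1 h2
  by_cases hii : i' = i
  · subst hii
    exact hs D hD h1 h2
  · have hI : (insert i J).card + 2 = Module.finrank K V := by
      rw [card_insert_of_notMem hi]
      omega
    have hI' : (insert i' J).card + 2 = Module.finrank K V := by
      rw [card_insert_of_notMem hi']
      omega
    have b1 := Sp_base hI s1
    have b2 := Sp_base hI s2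
    have b3 := Sp_base hI' s3
    have b4 := Sp_base hI' s4
    have m1 : a ≠ i ∧ a ∉ J := by
      have := Sp_notMem hI s1
      rw [mem_insert, not_or] at this
      exact this
    have m2 : b ≠ i ∧ b ∉ J := by
      have := Sp_notMem' hI s1
      rw [mem_insert, not_or] at this
      exact this
    have m3 : c ≠ i ∧ c ∉ J := by
      have := Sp_notMem hI s2
      rw [mem_insert, not_or] at this
      exact this
    have m4 : d ≠ i ∧ d ∉ J := by
      have := Sp_notMem' hI s2
      rw [mem_insert, not_or] at this
      exact this
    have n1 : a ≠ i' := by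
      have := Sp_notMem hI' s3
      rw [mem_insert, not_or] at this
      exact this.1
    have n2 : b ≠ i' := by
      have := Sp_notMem' hI' s3
      rw [mem_insert, not_or] at this
      exact this.1
    have n3 : c ≠ i' := by
      have := Sp_notMem hI' s4
      rw [mem_insert, not_or] at this
      exact this.1
    have n4 : d ≠ i' := by
      have := Sp_notMem' hI' s4
      rw [mem_insert, not_or] at this
      exact this.1
    set X : Finset (ℙ K V) := {a, b, c, d} with hX
    have iX : i ∉ X := by
      simp only [hX, mem_insert, mem_singleton]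
      rintro (h | h | h | h)
      · exact m1.1 h.symm
      · exact m2.1 h.symm
      · exact m3.1 h.symm
      · exact m4.1 h.symm
    have i'X : i' ∉ X := by
      simp only [hX, mem_insert, mem_singleton]
      rintro (h | h | h | h)
      · exact n1 h.symm
      · exact n2 h.symm
      · exact n3 h.symm
      · exact n4 h.symm
    have hXJ : Disjoint X J := by
      rw [Finset.disjoint_left]
      intro e he
      simp only [hX, mem_insert, mem_singleton] at he
      rcases he with rfl | rfl | rfl | rfl
      · exact m1.2
      · exact m2.2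
      · exact m3.2
      · exact m4.2
    -- the rank of `X`
    have hXr : ∀ B : Finset (ℙ K V), (PG K V).IsBase (B : Set (ℙ K V)) → (B ∩ X).card ≤ 2 := by
      intro B hB
      have h3 : (PG K V).Indep ((B ∩ X : Finset (ℙ K V)) : Set (ℙ K V)) :=
        hB.indep.subset (by exact_mod_cast inter_subset_left)
      have h4 := lio_card _ ((pg_indep _).1 h3)
      rw [Set.ncard_coe_finset] at h4
      rw [← h4]
      refine le_trans (Submodule.finrank_mono ?_) hU
      rw [Submodule.span_le]
      rintro _ ⟨e, he, rfl⟩
      have he' : e ∈ B ∩ X := by exact_mod_cast he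
      have he2 := (mem_inter.1 he').2
      simp only [hX, mem_insert, mem_singleton] at he2
      rcases he2 with rfl | rfl | rfl | rfl
      · exact ha
      · exact hb
      · exact hc
      · exact hd
    have hle : ∀ B : Finset (ℙ K V), (PG K V).IsBase (B : Set (ℙ K V)) →
        (B ∩ (J ∪ X)).card ≤ J.card + 2 := by
      intro B hB
      rw [inter_union_distrib_left]
      have h3 := card_union_le (B ∩ J) (B ∩ X)
      have h4 : (B ∩ J).card ≤ J.card := card_le_card inter_subset_right
      have h5 := hXr B hB
      omega
    have tight : ∀ p q j : ℙ K V, p ∈ X → q ∈ X → p ≠ q → (j = i ∨ j = i') →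
        ∑ e ∈ insert p (insert q (insert j J)), wt (J ∪ X) {i, i'} e = J.card + 2 := by
      intro p q j hp hq hpq hj
      rw [sum_wt]
      have jX : j ∉ X := by
        rcases hj with rfl | rfl
        · exact iX
        · exact i'X
      have jJ : j ∉ J := by
        rcases hj with rfl | rfl
        · exact hi
        · exact hi'
      have e1 : insert p (insert q (insert j J)) ∩ (J ∪ X) = insert p (insert q J) := by
        ext e
        simp only [mem_inter, mem_insert, mem_union]
        constructor
        · rintro ⟨h | h | h | h, h'⟩
          · exact Or.inl h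
          · exact Or.inr (Or.inl h)
          · rcases h' with h' | h'
            · exact absurd (h ▸ h') jJ
            · exact absurd (h ▸ h') jX
          · exact Or.inr (Or.inr h)
        · rintro (h | h | h)
          · exact ⟨Or.inl h, Or.inr (h ▸ hp)⟩
          · exact ⟨Or.inr (Or.inl h), Or.inr (h ▸ hq)⟩
          · exact ⟨Or.inr (Or.inr (Or.inr h)), Or.inl h⟩
      have e2 : insert p (insert q (insert j J)) \ (J ∪ X ∪ {i, i'}) = ∅ := by
        rw [sdiff_eq_empty_iff_subset]
        intro e he
        simp only [mem_insert, mem_union, mem_singleton] at he ⊢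
        rcases he with h | h | h | h
        · exact Or.inl (Or.inr (h ▸ hp))
        · exact Or.inl (Or.inr (h ▸ hq))
        · right
          rcases hj with h' | h'
          · exact Or.inl (h.trans h')
          · exact Or.inr (h.trans h')
        · exact Or.inl (Or.inl h)
      rw [e1, e2, card_insert_of_notMem, card_insert_of_notMem]
      · simp
        ring
      · exact Finset.disjoint_left.1 hXJ hq
      · rw [mem_insert]
        rintro (h | h)
        · exact hpq h
        · exact Finset.disjoint_left.1 hXJ hp h
    have aX : a ∈ X := by simp [hX]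
    have bX : b ∈ X := by simp [hX]
    have cX : c ∈ X := by simp [hX]
    have dX : d ∈ X := by simp [hX]
    have nab := Sp_ne hI s1
    have ncd := Sp_ne hI s2
    have er : ∀ p q : ℙ K V, p ≠ i → q ≠ i →
        insert p (insert q (insert i' J)) =
          insert i' ((insert p (insert q (insert i J))).erase i) := by
      intro p q hp hq
      ext e
      simp only [mem_insert, mem_erase]
      constructor
      · rintro (h | h | h | h)
        · exact Or.inr ⟨h ▸ hp, Or.inl h⟩
        · exact Or.inr ⟨h ▸ hq, Or.inr (Or.inl h)⟩
        · exact Or.inl h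
        · exact Or.inr ⟨fun h' => hi (h' ▸ h), Or.inr (Or.inr (Or.inr h))⟩
      · rintro (h | ⟨h', h | h | h | h⟩)
        · exact Or.inr (Or.inr (Or.inl h))
        · exact Or.inl h
        · exact Or.inr (Or.inl h)
        · exact absurd h h'
        · exact Or.inr (Or.inr (Or.inr h))
    obtain ⟨N, hN, g1, g2⟩ := swap hS (wt (J ∪ X) {i, i'}) (J.card + 2) i i' (Ne.symm hii)
      (insert a (insert b (insert i J))) (insert c (insert d (insert i J)))
      (insert a (insert b (insert i' J))) (insert c (insert d (insert i' J))) b1 b2 b3 b4
      (by simp)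
      (by
        simp only [mem_insert, not_or]
        exact ⟨n1.symm, n2.symm, hii, hi'⟩)
      (by
        simp only [mem_insert, not_or]
        exact ⟨n3.symm, n4.symm, hii, hi'⟩)
      (er a b m1.1 m2.1)
      (Or.inl ⟨by simp, er c d m3.1 m4.1⟩)
      (by
        intro B hB
        rw [sum_wt]
        have h3 : ((B ∩ (J ∪ X)).card : ℝ) ≤ J.card + 2 := by exact_mod_cast hle B hB
        have h4 : (0 : ℝ) ≤ (B \ (J ∪ X ∪ {i, i'})).card := by positivity
        linarith)
      (tight a b i aX bX nab (Or.inl rfl))
      (tight c d i cX dX ncd (Or.inl rfl))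
      (tight a b i' aX bX nab (Or.inr rfl))
      (tight c d i' cX dX ncd (Or.inr rfl))
      (by
        intro B hB hw ⟨hiB, hi'B⟩
        rw [sum_wt] at hw
        have h3 := hle B hB
        have h3' : ((B ∩ (J ∪ X)).card : ℝ) ≤ J.card + 2 := by exact_mod_cast h3
        have h4 : (0 : ℝ) ≤ (B \ (J ∪ X ∪ {i, i'})).card := by positivity
        have h5 : ((J.card + 2 : ℕ) : ℝ) ≤ (B ∩ (J ∪ X)).card := by
          push_cast
          linarith
        have h6 : J.card + 2 ≤ (B ∩ (J ∪ X)).card := by exact_mod_cast h5
        have h7 := ((isBase_iff B).1 hB).2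
        have h8 : insert i (insert i' (B ∩ (J ∪ X))) ⊆ B :=
          insert_subset hiB (insert_subset hi'B inter_subset_left)
        have h9 := card_le_card h8
        rw [card_insert_of_notMem, card_insert_of_notMem] at h9
        · omega
        · simp only [mem_inter, mem_union, not_and, not_or]
          exact fun _ => ⟨hi', i'X⟩
        · simp only [mem_insert, mem_inter, mem_union, not_or, not_and]
          exact ⟨fun h => hii h.symm, fun _ => ⟨hi, iX⟩⟩)
      D hD h1 h2
    exact hs N hN g1 g2

end Pool.Agent.Q163.PG
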