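import Mathlib
import Pool.Agent.Q163.PG.Moves

set_option autoImplicit false
set_option linter.unusedSectionVars false
set_option linter.unusedVariables false

/-!
No octahedron of the polytope of a finite projective geometry of dimension at least two is split.
-/

open scoped LinearAlgebra.Projectivization

namespace Pool.Agent.Q163.PG

open Finset

variable {K V : Type} [Field K] [AddCommGroup V] [Module K V] [Finite V]
  [Fintype (ℙ K V)] [DecidableEq (ℙ K V)]
  {S : Set (Set (ℙ K V → ℝ))}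

theorem rep_mem_iff (p : ℙ K V) (W : Submodule K V) : p.rep ∈ W ↔ pt p ≤ W := by
  unfold pt
  rw [Submodule.span_singleton_le_iff_mem]

theorem lio_pair {x y : ℙ K V} (hxy : x ≠ y) :
    LinearIndepOn K Projectivization.rep ({x, y} : Set (ℙ K V)) := by
  apply LinearIndepOn.insert (LinearIndepOn.singleton (Projectivization.rep_nonzero y))
  rw [Set.image_singleton, Submodule.mem_span_singleton]
  rintro ⟨κ, hκ⟩
  have h0 : κ ≠ 0 := by
    rintro rfl
    rw [zero_smul] at hκ
    exact x.rep_nonzero hκ.symm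
  apply hxy
  apply pt_inj
  unfold pt
  rw [← hκ, Submodule.span_singleton_smul_eq (IsUnit.mk0 κ h0)]

theorem pt_sup_pt {x y : ℙ K V} (hxy : x ≠ y) : Module.finrank K ↥(pt x ⊔ pt y) = 2 := by
  have h1 := lio_card ({x, y} : Set (ℙ K V)) (lio_pair hxy)
  rw [Set.image_pair, Submodule.span_insert, Set.ncard_pair hxy] at h1
  exact h1

theorem le_pair {x y : ℙ K V} (hxy : x ≠ y) {W : Submodule K V} (hW : Module.finrank K W ≤ 2)
    (hx : x.rep ∈ W) (hy : y.rep ∈ W) : W ≤ pt x ⊔ pt y := by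
  rw [rep_mem_iff] at hx hy
  have h1 : pt x ⊔ pt y ≤ W := sup_le hx hy
  have h2 := Submodule.eq_of_le_of_finrank_le h1 (by rw [pt_sup_pt hxy]; exact hW)
  exact h2.ge

theorem span_add (A : Submodule K V) (v s : V) (hs : s ∈ A) :
    Submodule.span K {v + s} ⊔ A = Submodule.span K {v} ⊔ A := by
  apply le_antisymm
  · apply sup_le _ le_sup_right
    rw [Submodule.span_singleton_le_iff_mem]
    exact Submodule.add_mem _ ((le_sup_left : Submodule.span K {v} ≤ _)
      (Submodule.mem_span_singleton_self v)) ((le_sup_right : A ≤ _) hs)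
  · apply sup_le _ le_sup_right
    rw [Submodule.span_singleton_le_iff_mem]
    have h1 : v + s ∈ Submodule.span K {v + s} ⊔ A :=
      (le_sup_left : Submodule.span K {v + s} ≤ _) (Submodule.mem_span_singleton_self _)
    have h2 : s ∈ Submodule.span K {v + s} ⊔ A := (le_sup_right : A ≤ _) hs
    have h3 := Submodule.sub_mem _ h1 h2
    rwa [add_sub_cancel_right] at h3

/-- transvections -/
def tv (l : V →ₗ[K] K) (u : V) : V →ₗ[K] V := LinearMap.id + l.smulRight u

theorem tv_apply (l : V →ₗ[K] K) (u x : V) : tv l u x = x + l x • u := rfl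

theorem tv_inj (l : V →ₗ[K] K) (u : V) (hu : l u = 0) : Function.Injective (tv l u) := by
  rw [← LinearMap.ker_eq_bot, LinearMap.ker_eq_bot']
  intro x hx
  rw [tv_apply] at hx
  have h1 := congrArg l hx
  rw [map_add, map_smul, hu, smul_zero, add_zero, map_zero] at h1
  rw [h1, zero_smul, add_zero] at hx
  exact hx

theorem pt_map (f : V →ₗ[K] V) (hf : Function.Injective f) (p : ℙ K V) :
    pt (Projectivization.map f hf p) = Submodule.span K {f p.rep} := by
  have h1 : Projectivization.map f hf p = Projectivization.mk K (f p.rep)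
      (fun h => p.rep_nonzero (hf (by rw [h, map_zero]))) := by
    conv_lhs => rw [← p.mk_rep]
    rfl
  rw [h1, rep_mk_span]

theorem mem_W_of_pt {p : ℙ K V} {v : V} {W : Submodule K V} (h : pt p = Submodule.span K {v})
    (hv : v ∈ W) : p.rep ∈ W := by
  rw [rep_mem_iff, h, Submodule.span_singleton_le_iff_mem]
  exact hv

variable (hS : IsMatroidSubdivision (PG K V) S)

include hS

theorem on_line (hr : 3 ≤ Module.finrank K V) (I : Finset (ℙ K V))
    (hI : I.card + 2 = Module.finrank K V) (W : Submodule K V) (hW : Module.finrank K W = 2)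
    (hWI : W ⊔ sp I = ⊤) (x y z t : ℙ K V) (hx : x.rep ∈ W) (hy : y.rep ∈ W) (hz : z.rep ∈ W)
    (ht : t.rep ∈ W) (hxy : x ≠ y) (hxz : x ≠ z) (hxt : x ≠ t) (hyz : y ≠ z) (hyt : y ≠ t)
    (hzt : z ≠ t) (hs : sig S I x y z t) : False := by
  classical
  set L : Finset (ℙ K V) := univ.filter (fun p => p.rep ∈ W) with hL
  have memL : ∀ p, p ∈ L ↔ p.rep ∈ W := by
    intro p
    rw [hL, mem_filter]
    simp
  -- general facts about pairs of points of `L`
  have spG : ∀ I' : Finset (ℙ K V), W ⊔ sp I' = ⊤ → ∀ p ∈ L, ∀ q ∈ L, p ≠ q → Sp I' p q := by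
    intro I' hI' p hp q hq hpq
    unfold Sp
    rw [sp2, ← sup_assoc, eq_top_iff, ← hI']
    exact sup_le_sup_right (le_pair hpq hW.le ((memL p).1 hp) ((memL q).1 hq)) _
  have spI := spG I hWI
  have hLcard : 4 ≤ L.card := by
    have h1 : ({x, y, z, t} : Finset (ℙ K V)) ⊆ L := by
      intro e he
      simp only [mem_insert, mem_singleton] at he
      rw [memL]
      rcases he with rfl | rfl | rfl | rfl
      · exact hx
      · exact hy
      · exact hz
      · exact ht
    have h2 := card_le_card h1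
    have h3 : ({x, y, z, t} : Finset (ℙ K V)).card = 4 := by
      rw [card_insert_of_notMem, card_insert_of_notMem, card_insert_of_notMem, card_singleton]
      · simp [hzt]
      · simp [hyz, hyt]
      · simp [hxy, hxz, hxt]
    omega
  have hdisj : Disjoint I L := by
    rw [Finset.disjoint_right]
    intro p hp
    obtain ⟨q, hq, hqp⟩ : ∃ q ∈ L, q ≠ p := by
      by_contra hcon
      push Not at hcon
      have : L ⊆ {p} := fun q hq => mem_singleton.2 (hcon q hq)
      have := card_le_card this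
      rw [card_singleton] at this
      omega
    exact Sp_notMem hI (spI p hp q hq hqp.symm)
  have hbL : ∀ p ∈ L, ∀ q ∈ L, p ≠ q →
      (PG K V).IsBase ((insert p (insert q I) : Finset (ℙ K V)) : Set (ℙ K V)) :=
    fun p hp q hq hpq => Sp_base hI (spI p hp q hq hpq)
  -- a smallest split
  obtain ⟨P₀, hP₀⟩ := exists_split hS I L hdisj (by omega) hbL x y z t ((memL x).2 hx)
    ((memL y).2 hy) ((memL z).2 hz) ((memL t).2 ht) hxy hzt hs
  obtain ⟨P, hPm, hPmin⟩ := Finset.exists_min_image (univ.filter (fun P => IsSplit S I L P))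
    Finset.card ⟨P₀, by rw [mem_filter]; exact ⟨mem_univ _, hP₀⟩⟩
  rw [mem_filter] at hPm
  have hP := hPm.2
  have hcomp : IsSplit S I L (L \ P) := by
    have h1 : L \ (L \ P) = P := by
      rw [sdiff_sdiff_right_self]
      exact inf_eq_right.2 hP.1
    refine ⟨sdiff_subset, hP.2.2.1, by rw [h1]; exact hP.2.1, ?_⟩
    rw [h1]
    intro a ha b hb hab c hc d hd hcd
    exact sig_symm (hP.2.2.2 c hc d hd hcd a ha b hb hab)
  have hPle : P.card ≤ (L \ P).card := hPmin _ (by rw [mem_filter]; exact ⟨mem_univ _, hcomp⟩)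
  have hPL := card_sdiff_add_card_eq_card hP.1
  -- three points
  obtain ⟨a, ha, b, hb, hab⟩ := one_lt_card.1 (by have := hP.2.1; omega : 1 < P.card)
  obtain ⟨c, hc⟩ : (L \ P).Nonempty := card_pos.1 (by have := hP.2.2.1; omega)
  rw [mem_sdiff] at hc
  have haL := hP.1 ha
  have hbL' := hP.1 hb
  have hac : a ≠ c := fun h => hc.2 (h ▸ ha)
  have hbc : b ≠ c := fun h => hc.2 (h ▸ hb)
  have hcW : c.rep ∈ pt a ⊔ pt b :=
    le_pair hab hW.le ((memL a).1 haL) ((memL b).1 hbL') ((memL c).1 hc.1)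
  obtain ⟨ca, hca, cb, hcb, hcab⟩ := Submodule.mem_sup.1 hcW
  unfold pt at hca hcb
  rw [Submodule.mem_span_singleton] at hca hcb
  obtain ⟨α, rfl⟩ := hca
  obtain ⟨β, rfl⟩ := hcb
  have hα : α ≠ 0 := by
    rintro rfl
    rw [zero_smul, zero_add] at hcab
    apply hbc
    apply pt_inj
    unfold pt
    rw [← hcab]
    have hβ : β ≠ 0 := by
      rintro rfl
      rw [zero_smul] at hcab
      exact c.rep_nonzero hcab.symm
    rw [Submodule.span_singleton_smul_eq (IsUnit.mk0 β hβ)]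
  have hβ : β ≠ 0 := by
    rintro rfl
    rw [zero_smul, add_zero] at hcab
    apply hac
    apply pt_inj
    unfold pt
    rw [← hcab, Submodule.span_singleton_smul_eq (IsUnit.mk0 α hα)]
  set u : V := (β⁻¹ * α) • a.rep with hu
  have hκ : β⁻¹ * α ≠ 0 := mul_ne_zero (inv_ne_zero hβ) hα
  have hspan_u : Submodule.span K {u} = pt a := by
    unfold pt
    rw [hu, Submodule.span_singleton_smul_eq (IsUnit.mk0 _ hκ)]
  have huW : u ∈ W := W.smul_mem _ ((memL a).1 haL)
  -- the functional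
  have hbn : b.rep ∉ sp (insert a I) := by
    intro h
    have h1 : Sp I b a := Sp_comm (spI a haL b hbL' hab)
    unfold Sp at h1
    rw [sp_insert, sup_eq_right.2 ((rep_mem_iff _ _).1 h)] at h1
    exact small hI (card_insert_le _ _) h1
  obtain ⟨l₀, hl₀, hker₀⟩ := Submodule.exists_le_ker_of_notMem hbn
  set l : V →ₗ[K] K := (l₀ b.rep)⁻¹ • l₀ with hl
  have lb : l b.rep = 1 := by
    rw [hl, LinearMap.smul_apply, smul_eq_mul, inv_mul_cancel₀ hl₀]
  have lker : ∀ v ∈ sp (insert a I), l v = 0 := by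
    intro v hv
    have h1 : l₀ v = 0 := hker₀ hv
    rw [hl, LinearMap.smul_apply, h1, smul_zero]
  have la : l a.rep = 0 := lker _ ((rep_mem_iff _ _).2 (pt_le a _ (mem_insert_self _ _)))
  have lu : l u = 0 := by rw [hu, map_smul, la, smul_zero]
  have lI : ∀ v ∈ sp I, l v = 0 := by
    intro v hv
    apply lker
    rw [sp_insert]
    exact (le_sup_right : sp I ≤ _) hv
  -- an element of `I`
  obtain ⟨i, hi⟩ : I.Nonempty := card_pos.1 (by omega)
  set w : V := i.rep with hw
  have hwI : w ∈ sp I := (rep_mem_iff _ _).2 (pt_le i _ hi)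
  have lw : l w = 0 := lI w hwI
  set J := I.erase i with hJ
  have hIJ : insert i J = I := insert_erase hi
  have hiJ : i ∉ J := notMem_erase i I
  have hJc : J.card + 3 = Module.finrank K V := by
    rw [hJ, card_erase_of_mem hi]
    have := card_pos.2 ⟨i, hi⟩
    omega
  have haI : a.rep ∉ sp I := by
    intro h
    have h1 := spI a haL b hbL' hab
    unfold Sp at h1
    rw [sp2, sup_eq_right.2 (((rep_mem_iff _ _).1 h).trans le_sup_right), ← sp_insert] at h1
    exact small hI (card_insert_le _ _) h1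
  have huI : u ∉ sp I := by
    intro h
    apply haI
    have h1 : a.rep = (β⁻¹ * α)⁻¹ • u := by
      rw [hu, smul_smul, inv_mul_cancel₀ hκ, one_smul]
    rw [h1]
    exact (sp I).smul_mem _ h
  have hwu : w - u ≠ 0 := by
    intro h
    rw [sub_eq_zero] at h
    exact huI (h ▸ hwI)
  set i' : ℙ K V := Projectivization.mk K (w - u) hwu with hi'
  have pti' : pt i' = Submodule.span K {w - u} := rep_mk_span _ _
  have hJI : sp J ≤ sp I := by
    unfold sp
    apply Submodule.span_mono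
    apply Set.image_mono
    exact_mod_cast erase_subset _ _
  have hi'J : i' ∉ J := by
    intro h
    have h1 := pt_le i' J h
    rw [pti', Submodule.span_singleton_le_iff_mem] at h1
    have h2 := (sp I).sub_mem hwI (hJI h1)
    rw [sub_sub_cancel] at h2
    exact huI h2
  have hI' : (insert i' J).card + 2 = Module.finrank K V := by
    rw [card_insert_of_notMem hi'J]
    omega
  have hwu' : w - u ∈ sp (insert i' J) := by
    have h1 := pt_le i' (insert i' J) (mem_insert_self _ _)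
    rw [pti', Submodule.span_singleton_le_iff_mem] at h1
    exact h1
  have hWI' : W ⊔ sp (insert i' J) = ⊤ := by
    rw [eq_top_iff, ← hWI, ← hIJ, sp_insert]
    apply sup_le le_sup_left
    apply sup_le
    · rw [← rep_mem_iff]
      have h1 : w = (w - u) + u := by abel
      rw [← hw, h1]
      exact Submodule.add_mem _ ((le_sup_right : sp (insert i' J) ≤ _) hwu')
        ((le_sup_left : W ≤ _) huW)
    · rw [sp_insert]
      exact le_sup_of_le_right le_sup_right
  -- the maps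
  set F : ℙ K V → ℙ K V := Projectivization.map (tv l u) (tv_inj l u lu) with hF
  set F₁ : ℙ K V → ℙ K V := Projectivization.map (tv l w) (tv_inj l w lw) with hF₁
  have ptF : ∀ p, pt (F p) = Submodule.span K {p.rep + l p.rep • u} := fun p => pt_map _ _ p
  have ptF₁ : ∀ p, pt (F₁ p) = Submodule.span K {p.rep + l p.rep • w} := fun p => pt_map _ _ p
  have e1 : ∀ p, pt (F₁ p) ⊔ sp I = pt p ⊔ sp I := by
    intro p
    rw [ptF₁]
    exact span_add _ _ _ ((sp I).smul_mem _ hwI)
  have e2 : ∀ p, pt (F p) ⊔ sp (insert i' J) = pt (F₁ p) ⊔ sp (insert i' J) := by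
    intro p
    rw [ptF₁, ptF]
    have h1 : p.rep + l p.rep • u = (p.rep + l p.rep • w) + (- l p.rep) • (w - u) := by
      rw [smul_sub, neg_smul, neg_smul]
      abel
    rw [h1]
    exact span_add _ _ _ (Submodule.smul_mem _ _ hwu')
  have FL : ∀ p ∈ L, F p ∈ L := by
    intro p hp
    rw [memL] at hp ⊢
    exact mem_W_of_pt (ptF p) (W.add_mem hp (W.smul_mem _ huW))
  have Finj : Function.Injective F := Projectivization.map_injective _ _
  have Fa : F a = a := by
    apply pt_inj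
    rw [ptF, la, zero_smul, add_zero]
    rfl
  have Fb : F b = c := by
    apply pt_inj
    rw [ptF, lb, one_smul]
    have h1 : b.rep + u = β⁻¹ • c.rep := by
      rw [← hcab, hu, smul_add, smul_smul, smul_smul, inv_mul_cancel₀ hβ, one_smul, add_comm]
    rw [h1, Submodule.span_singleton_smul_eq (IsUnit.mk0 _ (inv_ne_zero hβ))]
    rfl
  -- the transfer of the separation
  have spI' := spG (insert i' J) hWI'
  have transfer : ∀ p ∈ L, ∀ q ∈ L, ∀ r ∈ L, ∀ s ∈ L, p ≠ q → p ≠ r → p ≠ s → q ≠ r → q ≠ s →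
      r ≠ s → sig S I p q r s → sig S I (F p) (F q) (F r) (F s) := by
    intro p hp q hq r hr' s hs' n1 n2 n3 n4 n5 n6 h0
    have h1 := cmove4 hS hI p q r s (F₁ p) (F₁ q) (F₁ r) (F₁ s) (spI p hp q hq n1)
      (spI p hp r hr' n2) (spI p hp s hs' n3) (spI q hq r hr' n4) (spI q hq s hs' n5)
      (spI r hr' s hs' n6) (e1 p) (e1 q) (e1 r) (e1 s) h0
    have mv2 : ∀ A : Finset (ℙ K V), ∀ v₁ v₂ v₁' v₂' : ℙ K V, Sp A v₁ v₂ →
        pt v₁' ⊔ sp A = pt v₁ ⊔ sp A → pt v₂' ⊔ sp A = pt v₂ ⊔ sp A → Sp A v₁' v₂' := by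
      intro A v₁ v₂ v₁' v₂' h e e'
      exact Sp_comm (Sp_move (Sp_comm (Sp_move h e)) e')
    have g1 : ∀ v₁ ∈ L, ∀ v₂ ∈ L, v₁ ≠ v₂ → Sp I (F₁ v₁) (F₁ v₂) := fun v₁ h₁ v₂ h₂ hne =>
      mv2 I _ _ _ _ (spI v₁ h₁ v₂ h₂ hne) (e1 v₁) (e1 v₂)
    have g2 : ∀ v₁ ∈ L, ∀ v₂ ∈ L, v₁ ≠ v₂ → Sp (insert i' J) (F v₁) (F v₂) :=
      fun v₁ h₁ v₂ h₂ hne => spI' _ (FL v₁ h₁) _ (FL v₂ h₂) (Finj.ne hne)
    have g3 : ∀ v₁ ∈ L, ∀ v₂ ∈ L, v₁ ≠ v₂ → Sp (insert i' J) (F₁ v₁) (F₁ v₂) :=
      fun v₁ h₁ v₂ h₂ hne => mv2 (insert i' J) _ _ _ _ (g2 v₁ h₁ v₂ h₂ hne) (e2 v₁).symm (e2 v₂).symm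
    have g4 : ∀ v₁ ∈ L, ∀ v₂ ∈ L, v₁ ≠ v₂ → Sp I (F v₁) (F v₂) :=
      fun v₁ h₁ v₂ h₂ hne => spI _ (FL v₁ h₁) _ (FL v₂ h₂) (Finj.ne hne)
    have hU : Module.finrank K (W.map (tv l w)) ≤ 2 := by
      rw [← hW]
      exact Submodule.finrank_map_le _ _
    have mU : ∀ v ∈ L, (F₁ v).rep ∈ W.map (tv l w) := by
      intro v hv
      exact mem_W_of_pt (ptF₁ v) ⟨v.rep, (memL v).1 hv, tv_apply l w v.rep⟩
    have h2 : sig S (insert i' J) (F₁ p) (F₁ q) (F₁ r) (F₁ s) := by
      apply bmove hS J i i' hJc hiJ hi'J _ _ _ _ _ hU (mU p hp) (mU q hq) (mU r hr') (mU s hs')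
      · rw [hIJ]; exact g1 p hp q hq n1
      · rw [hIJ]; exact g1 r hr' s hs' n6
      · exact g3 p hp q hq n1
      · exact g3 r hr' s hs' n6
      · rw [hIJ]; exact h1
    have h3 := cmove4 hS hI' (F₁ p) (F₁ q) (F₁ r) (F₁ s) (F p) (F q) (F r) (F s)
      (g3 p hp q hq n1) (g3 p hp r hr' n2) (g3 p hp s hs' n3) (g3 q hq r hr' n4)
      (g3 q hq s hs' n5) (g3 r hr' s hs' n6) (e2 p) (e2 q) (e2 r) (e2 s) h2
    have h4 : sig S (insert i J) (F p) (F q) (F r) (F s) := by
      apply bmove hS J i' i hJc hi'J hiJ _ _ _ _ W hW.le ((memL _).1 (FL p hp))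
        ((memL _).1 (FL q hq)) ((memL _).1 (FL r hr')) ((memL _).1 (FL s hs'))
      · exact g2 p hp q hq n1
      · exact g2 r hr' s hs' n6
      · rw [hIJ]; exact g4 p hp q hq n1
      · rw [hIJ]; exact g4 r hr' s hs' n6
      · exact h3
    rw [hIJ] at h4
    exact h4
  -- the image of the split
  set Q := P.image F with hQ
  have hQL : Q ⊆ L := by
    intro e he
    rw [hQ, mem_image] at he
    obtain ⟨p, hp, rfl⟩ := he
    exact FL p (hP.1 hp)
  have hQc : Q.card = P.card := card_image_of_injective _ Finj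
  have hLimg : L.image F = L := by
    apply eq_of_subset_of_card_le
    · intro e he
      rw [mem_image] at he
      obtain ⟨p, hp, rfl⟩ := he
      exact FL p hp
    · rw [card_image_of_injective _ Finj]
  have hpre : ∀ e ∈ L \ Q, ∃ e' ∈ L \ P, F e' = e := by
    intro e he
    rw [mem_sdiff] at he
    have h1 : e ∈ L.image F := by rw [hLimg]; exact he.1
    rw [mem_image] at h1
    obtain ⟨e', he', rfl⟩ := h1
    refine ⟨e', mem_sdiff.2 ⟨he', fun h => he.2 ?_⟩, rfl⟩
    rw [hQ, mem_image]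
    exact ⟨e', h, rfl⟩
  have hQsplit : IsSplit S I L Q := by
    refine ⟨hQL, by rw [hQc]; exact hP.2.1, ?_, ?_⟩
    · have h1 := card_sdiff_add_card_eq_card hQL
      have h2 := hP.2.2.1
      omega
    · intro p hp q hq hpq r hr' s hs' hrs
      rw [hQ, mem_image] at hp hq
      obtain ⟨p', hp', rfl⟩ := hp
      obtain ⟨q', hq', rfl⟩ := hq
      obtain ⟨r', hr'', rfl⟩ := hpre r hr'
      obtain ⟨s', hs'', rfl⟩ := hpre s hs'
      have m1 : p' ≠ q' := fun h => hpq (by rw [h])
      have m2 : r' ≠ s' := fun h => hrs (by rw [h])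
      have k1 := mem_sdiff.1 hr''
      have k2 := mem_sdiff.1 hs''
      exact transfer p' (hP.1 hp') q' (hP.1 hq') r' k1.1 s' k2.1 m1
        (fun h => k1.2 (h ▸ hp')) (fun h => k2.2 (h ▸ hp')) (fun h => k1.2 (h ▸ hq'))
        (fun h => k2.2 (h ▸ hq')) m2 (hP.2.2.2 p' hp' q' hq' m1 r' hr'' s' hs'' m2)
  have haQ : a ∈ Q := by
    rw [hQ, mem_image]
    exact ⟨a, ha, Fa⟩
  have hcQ : c ∈ Q := by
    rw [hQ, mem_image]
    exact ⟨b, hb, Fb⟩
  obtain ⟨y₁, hy₁⟩ : (P \ Q).Nonempty := by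
    rw [← card_pos]
    have h1 : 0 < (Q \ P).card := card_pos.2 ⟨c, mem_sdiff.2 ⟨hcQ, hc.2⟩⟩
    have h2 := card_sdiff_add_card_inter P Q
    have h3 := card_sdiff_add_card_inter Q P
    rw [inter_comm Q P] at h3
    omega
  rw [mem_sdiff] at hy₁
  obtain ⟨d, hd⟩ : (L \ (P ∪ Q)).Nonempty := by
    rw [← card_pos]
    have h1 := card_sdiff_add_card_eq_card (union_subset hP.1 hQL)
    have h2 := card_union_add_card_inter P Q
    have h3 : 0 < (P ∩ Q).card := card_pos.2 ⟨a, mem_inter.2 ⟨ha, haQ⟩⟩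
    omega
  rw [mem_sdiff, mem_union, not_or] at hd
  exact crossing hS I L P Q hdisj hbL hP hQsplit a y₁ c d ha haQ hy₁.1 hy₁.2 hcQ hc.2 hd.1
    hd.2.1 hd.2.2

/-- no octahedron is split -/
theorem no_sig (hr : 3 ≤ Module.finrank K V) (I : Finset (ℙ K V))
    (hI : I.card + 2 = Module.finrank K V) (a b c d : ℙ K V) (hab : Sp I a b) (hac : Sp I a c)
    (had : Sp I a d) (hbc : Sp I b c) (hbd : Sp I b d) (hcd : Sp I c d) :
    ¬ sig S I a b c d := by
  intro hs
  have hproj : ∀ e : ℙ K V, Sp I a e → ∃ e' : ℙ K V, e'.rep ∈ pt a ⊔ pt b ∧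
      pt e' ⊔ sp I = pt e ⊔ sp I := by
    intro e he
    have h1 : e.rep ∈ (pt a ⊔ pt b) ⊔ sp I := by
      have h2 : (pt a ⊔ pt b) ⊔ sp I = ⊤ := by
        rw [sup_assoc, ← sp2]
        exact hab
      rw [h2]
      exact Submodule.mem_top
    obtain ⟨v, hv, s, hs', hvs⟩ := Submodule.mem_sup.1 h1
    have hv0 : v ≠ 0 := by
      rintro rfl
      rw [zero_add] at hvs
      have h3 : pt e ≤ sp I := by
        rw [← rep_mem_iff, ← hvs]
        exact hs'
      have h4 := Sp_comm he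
      unfold Sp at h4
      rw [sp2, sup_eq_right.2 (h3.trans le_sup_right), ← sp_insert] at h4
      exact small hI (card_insert_le _ _) h4
    refine ⟨Projectivization.mk K v hv0, ?_, ?_⟩
    · exact mem_W_of_pt (rep_mk_span v hv0) hv
    · rw [rep_mk_span, show pt e = Submodule.span K {v + s} from by rw [hvs]; rfl]
      exact (span_add _ _ _ hs').symm
  obtain ⟨c', hc', ec⟩ := hproj c hac
  obtain ⟨d', hd', ed⟩ := hproj d had
  have h1 := cmove4 hS hI a b c d a b c' d' hab hac had hbc hbd hcd rfl rfl ec ed hs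
  have hac' : Sp I a c' := Sp_comm (Sp_move (Sp_comm hac) ec)
  have had' : Sp I a d' := Sp_comm (Sp_move (Sp_comm had) ed)
  have hbc' : Sp I b c' := Sp_comm (Sp_move (Sp_comm hbc) ec)
  have hbd' : Sp I b d' := Sp_comm (Sp_move (Sp_comm hbd) ed)
  have hcd' : Sp I c' d' := Sp_comm (Sp_move (Sp_comm (Sp_move hcd ec)) ed)
  refine on_line hS hr I hI (pt a ⊔ pt b) (pt_sup_pt (Sp_ne hI hab)) ?_ a b c' d' ?_ ?_ hc' hd'
    (Sp_ne hI hab) (Sp_ne hI hac') (Sp_ne hI had') (Sp_ne hI hbc') (Sp_ne hI hbd')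
    (Sp_ne hI hcd') h1
  · rw [sup_assoc, ← sp2]
    exact hab
  · rw [rep_mem_iff]
    exact le_sup_left
  · rw [rep_mem_iff]
    exact le_sup_right

/-- the polytope itself is a cell -/
theorem polytope_mem (hr : 3 ≤ Module.finrank K V) : polytope (PG K V) ∈ S := by
  refine trivial_of (PG K V) S hS (full_support (by omega)) no_loop ?_
  intro I a b c d b1 b2 b3 b4 b5 b6 aI bI cI dI nab nac nad nbc nbd ncd
  have hI : I.card + 2 = Module.finrank K V := by
    have h1 := ((isBase_iff _).1 b1).2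
    rw [card_insert_of_notMem, card_insert_of_notMem bI] at h1
    · omega
    · rw [mem_insert]
      rintro (h | h)
      · exact nab h
      · exact aI h
  have h1 := no_sig hS hr I hI a b c d ((isBase_iff _).1 b1).1 ((isBase_iff _).1 b3).1
    ((isBase_iff _).1 b5).1 ((isBase_iff _).1 b6).1 ((isBase_iff _).1 b4).1 ((isBase_iff _).1 b2).1
  unfold sig at h1
  push Not at h1
  exact h1

end Pool.Agent.Q163.PG
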